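import Pool.Agent.R288.AS.Upper

/-! Symbolic coding. -/

namespace Pool.Agent.R288.AS
open Set MeasureTheory Filter Topology Metric
open scoped ENNReal NNReal

/-- Shifted sequence. -/
def sh (n : ℕ) (b : ℕ → ℕ) : ℕ → ℕ := fun i => b (i + n)

lemma sh_sh (n m : ℕ) (b : ℕ → ℕ) : sh m (sh n b) = sh (n + m) b := by
  funext i; simp only [sh]; congr 1; ring

lemma sh_zero (b : ℕ → ℕ) : sh 0 b = b := rfl

/-- Finite compositions of inverse branches. -/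
def pre (φ : ℕ → ℝ → ℝ) : ℕ → (ℕ → ℕ) → ℝ → ℝ
  | 0, _, u => u
  | m+1, b, u => φ (b 0) (pre φ m (sh 1 b) u)

variable {T : ℝ → ℝ} {φ : ℕ → ℝ → ℝ}

lemma pre_mem (h : IsSys T φ) (m : ℕ) : ∀ (b : ℕ → ℕ), (∀ n, 1 ≤ b n) → ∀ u ∈ Icc (0:ℝ) 1,
    pre φ m b u ∈ Icc (0:ℝ) 1 := by
  induction m with
  | zero => intro b _ u hu; exact hu
  | succ m ih =>
    intro b hb u hu
    exact h.phi_mem (hb 0) (ih (sh 1 b) (fun n => hb _) u hu)

lemma phi_lip_one (h : IsSys T φ) {n : ℕ} (hn : 1 ≤ n) {u v : ℝ} (hu : u ∈ Icc (0:ℝ) 1)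
    (hv : v ∈ Icc (0:ℝ) 1) : |φ n u - φ n v| ≤ |u - v| := by
  refine (h.lip n hn u hu v hv).trans ?_
  have hn' : (1:ℝ) ≤ n := by exact_mod_cast hn
  exact div_le_self (abs_nonneg _) (by nlinarith)

lemma pre_lip (h : IsSys T φ) (m : ℕ) : ∀ (b : ℕ → ℕ), (∀ n, 1 ≤ b n) → ∀ u ∈ Icc (0:ℝ) 1,
    ∀ v ∈ Icc (0:ℝ) 1, |pre φ m b u - pre φ m b v| ≤ |u - v| := by
  induction m with
  | zero => intro b _ u _ v _; exact le_rfl
  | succ m ih =>
    intro b hb u hu v hv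
    exact (phi_lip_one h (hb 0) (pre_mem h m (sh 1 b) (fun n => hb _) u hu)
      (pre_mem h m (sh 1 b) (fun n => hb _) v hv)).trans (ih (sh 1 b) (fun n => hb _) u hu v hv)

lemma pre_contr (h : IsSys T φ) : ∀ (m : ℕ) (b : ℕ → ℕ), (∀ n, 1 ≤ b n) → ∀ u ∈ Icc (0:ℝ) 1,
    ∀ v ∈ Icc (0:ℝ) 1, |pre φ m b u - pre φ m b v| ≤ 2 * (3/4) ^ m * |u - v|
  | 0, b, _, u, _, v, _ => by
    simp only [pre]
    have := abs_nonneg (u - v)
    norm_num; linarith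
  | 1, b, hb, u, hu, v, hv => by
    have := phi_lip_one h (hb 0) hu hv
    have h0 := abs_nonneg (u - v)
    simp only [pre]
    norm_num; linarith
  | m+2, b, hb, u, hu, v, hv => by
    have ih := pre_contr h m (sh 1 (sh 1 b)) (fun n => hb _) u hu v hv
    have h2 := h.two (b 0) (sh 1 b 0) (hb 0) (hb _) _
      (pre_mem h m (sh 1 (sh 1 b)) (fun n => hb _) u hu) _
      (pre_mem h m (sh 1 (sh 1 b)) (fun n => hb _) v hv)
    simp only [pre]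
    have h0 := abs_nonneg (u - v)
    have h3 : (0:ℝ) ≤ (3/4)^m * |u - v| := by positivity
    calc _ ≤ _ := h2
      _ ≤ (2 * (3/4) ^ m * |u - v|) / 2 := by gcongr
      _ ≤ 2 * (3/4) ^ (m+2) * |u - v| := by
        rw [pow_add]; nlinarith

lemma pre_add (m k : ℕ) : ∀ (b : ℕ → ℕ) (u : ℝ),
    pre φ (m + k) b u = pre φ m b (pre φ k (sh m b) u) := by
  induction m with
  | zero => intro b u; simp [pre, sh_zero]
  | succ m ih =>
    intro b u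
    rw [show m + 1 + k = (m + k) + 1 by ring]
    simp only [pre]
    rw [ih, sh_sh, add_comm 1 m]

lemma pre_congr (m : ℕ) : ∀ (b b' : ℕ → ℕ), (∀ n < m, b n = b' n) → ∀ u,
    pre φ m b u = pre φ m b' u := by
  induction m with
  | zero => intro b b' _ u; rfl
  | succ m ih =>
    intro b b' hbb u
    simp only [pre]
    rw [hbb 0 (by omega), ih (sh 1 b) (sh 1 b') (fun n hn => hbb (n+1) (by omega))]

lemma pre_alip (h : IsSys T φ) (m : ℕ) : ∀ (b : ℕ → ℕ), (∀ n, 1 ≤ b n) → ∀ u ∈ Icc (0:ℝ) 1,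
    ∀ v ∈ Icc (0:ℝ) 1,
    |u - v| / ∏ i ∈ Finset.range m, ((b i : ℝ) + 1)^2 ≤ |pre φ m b u - pre φ m b v| := by
  induction m with
  | zero => intro b _ u _ v _; simp [pre]
  | succ m ih =>
    intro b hb u hu v hv
    have ih' := ih (sh 1 b) (fun n => hb _) u hu v hv
    have h2 := h.alip (b 0) (hb 0) _ (pre_mem h m (sh 1 b) (fun n => hb _) u hu) _
      (pre_mem h m (sh 1 b) (fun n => hb _) v hv)
    simp only [pre]
    refine le_trans ?_ h2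
    rw [Finset.prod_range_succ', ← div_div]
    gcongr
    exact ih'

lemma cauchy_pre (h : IsSys T φ) {b : ℕ → ℕ} (hb : ∀ n, 1 ≤ b n) :
    CauchySeq (fun m => pre φ m b 0) := by
  refine cauchySeq_of_le_geometric (3/4) 2 (by norm_num) fun m => ?_
  rw [Real.dist_eq]
  have h0 : (0:ℝ) ∈ Icc (0:ℝ) 1 := ⟨le_rfl, zero_le_one⟩
  have h1 : pre φ 1 (sh m b) 0 ∈ Icc (0:ℝ) 1 := pre_mem h 1 _ (fun n => hb _) 0 h0
  rw [pre_add m 1]
  refine (pre_contr h m b hb 0 h0 _ h1).trans ?_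
  have h2 : |0 - pre φ 1 (sh m b) 0| ≤ 1 := by
    rw [zero_sub, abs_neg, abs_of_nonneg h1.1]; exact h1.2
  have h3 : (0:ℝ) ≤ 2 * (3/4)^m := by positivity
  nlinarith

/-- The point with digit sequence `b`. -/
noncomputable def val (φ : ℕ → ℝ → ℝ) (b : ℕ → ℕ) : ℝ := limUnder atTop (fun m => pre φ m b 0)

lemma tendsto_val (h : IsSys T φ) {b : ℕ → ℕ} (hb : ∀ n, 1 ≤ b n) :
    Tendsto (fun m => pre φ m b 0) atTop (𝓝 (val φ b)) :=
  CauchySeq.tendsto_limUnder (cauchy_pre h hb)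

lemma val_mem (h : IsSys T φ) {b : ℕ → ℕ} (hb : ∀ n, 1 ≤ b n) : val φ b ∈ Icc (0:ℝ) 1 :=
  isClosed_Icc.mem_of_tendsto (tendsto_val h hb)
    (Eventually.of_forall fun m => pre_mem h m b hb 0 ⟨le_rfl, zero_le_one⟩)

lemma val_eq (h : IsSys T φ) {b : ℕ → ℕ} (hb : ∀ n, 1 ≤ b n) :
    val φ b = φ (b 0) (val φ (sh 1 b)) := by
  have h1 := (tendsto_val h hb).comp (tendsto_add_atTop_nat 1)
  have hb' : ∀ n, 1 ≤ sh 1 b n := fun n => hb _
  have h2 := tendsto_val h hb'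
  refine tendsto_nhds_unique h1 ?_
  rw [tendsto_iff_dist_tendsto_zero] at h2 ⊢
  refine squeeze_zero (fun _ => dist_nonneg) (fun m => ?_) h2
  rw [Real.dist_eq, Real.dist_eq]
  exact phi_lip_one h (hb 0) (pre_mem h m (sh 1 b) hb' 0 ⟨le_rfl, zero_le_one⟩) (val_mem h hb')

lemma val_pre (h : IsSys T φ) (m : ℕ) : ∀ {b : ℕ → ℕ}, (∀ n, 1 ≤ b n) →
    val φ b = pre φ m b (val φ (sh m b)) := by
  induction m with
  | zero => intro b _; rfl
  | succ m ih =>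
    intro b hb
    rw [val_eq h hb, ih (b := sh 1 b) (fun n => hb _), sh_sh, add_comm 1 m]
    rfl

lemma val_pos (h : IsSys T φ) {b : ℕ → ℕ} (hb : ∀ n, 1 ≤ b n) : 0 < val φ b := by
  rw [val_eq h hb]
  exact h.phi_pos (hb 0) (val_mem h (fun n => hb _))

lemma val_hi (h : IsSys T φ) {b : ℕ → ℕ} (hb : ∀ n, 1 ≤ b n) : val φ b ≤ 1 / (b 0 : ℝ) := by
  rw [val_eq h hb]
  exact h.hi _ (hb 0) _ (val_mem h (fun n => hb _))

lemma val_lo (h : IsSys T φ) {b : ℕ → ℕ} (hb : ∀ n, 1 ≤ b n) :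
    1 / ((b 0 : ℝ) + 1) ≤ val φ b := by
  rw [val_eq h hb]
  exact h.lo _ (hb 0) _ (val_mem h (fun n => hb _))

/-- Sequences coding points of `(0,1)`. -/
def Good (b : ℕ → ℕ) : Prop := (∀ n, 1 ≤ b n) ∧ ∀ N, ∃ n, N ≤ n ∧ 2 ≤ b n

lemma Good.sh {b : ℕ → ℕ} (hb : Good b) (m : ℕ) : Good (sh m b) := by
  refine ⟨fun n => hb.1 _, fun N => ?_⟩
  obtain ⟨n, hn, hb2⟩ := hb.2 (N + m)
  refine ⟨n - m, by omega, ?_⟩
  simp only [AS.sh]
  rwa [Nat.sub_add_cancel (by omega)]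

lemma val_eq_one (h : IsSys T φ) : ∀ (n : ℕ) {b : ℕ → ℕ}, (∀ n, 1 ≤ b n) → val φ b = 1 →
    b n = 1 := by
  intro n
  induction n with
  | zero =>
    intro b hb h1
    by_contra hne
    have h2 : 2 ≤ b 0 := by have := hb 0; omega
    have h3 := val_hi h hb
    rw [h1] at h3
    have h4 : (2:ℝ) ≤ b 0 := by exact_mod_cast h2
    rw [le_div_iff₀ (by linarith)] at h3
    linarith
  | succ n ih =>
    intro b hb h1
    have h0 : b 0 = 1 := by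
      by_contra hne
      have h2 : 2 ≤ b 0 := by have := hb 0; omega
      have h3 := val_hi h hb
      rw [h1] at h3
      have h4 : (2:ℝ) ≤ b 0 := by exact_mod_cast h2
      rw [le_div_iff₀ (by linarith)] at h3
      linarith
    have hb' : ∀ n, 1 ≤ AS.sh 1 b n := fun n => hb _
    rw [val_eq h hb, h0] at h1
    rcases h.one _ (val_mem h hb') h1 with h5 | h5
    · exact absurd h5 (val_pos h hb').ne'
    · exact ih hb' h5

lemma val_lt_one (h : IsSys T φ) {b : ℕ → ℕ} (hb : Good b) : val φ b < 1 := by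
  refine lt_of_le_of_ne (val_mem h hb.1).2 fun h1 => ?_
  obtain ⟨n, _, h2⟩ := hb.2 0
  have := val_eq_one h n hb.1 h1
  omega

lemma val_Ico (h : IsSys T φ) {b : ℕ → ℕ} (hb : Good b) : val φ b ∈ Ico (0:ℝ) 1 :=
  ⟨(val_mem h hb.1).1, val_lt_one h hb⟩

lemma iter_val (h : IsSys T φ) (n : ℕ) : ∀ {b : ℕ → ℕ}, Good b →
    T^[n] (val φ b) = val φ (sh n b) := by
  induction n with
  | zero => intro b _; rfl
  | succ n ih =>
    intro b hb
    rw [Function.iterate_succ_apply, val_eq h hb.1,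
      h.inv _ (hb.1 0) _ (val_Ico h (hb.sh 1)), ih (hb.sh 1), sh_sh, add_comm 1 n]

/-- `a` is a digit sequence of `x`. -/
def Codes (T : ℝ → ℝ) (φ : ℕ → ℝ → ℝ) (a : ℕ → ℕ) (x : ℝ) : Prop :=
  x ∈ Ico (0:ℝ) 1 ∧ (∀ n, 1 ≤ a n) ∧ ∀ n, φ (a n) (T^[n+1] x) = T^[n] x

lemma codes_val (h : IsSys T φ) {b : ℕ → ℕ} (hb : Good b) : Codes T φ b (val φ b) := by
  refine ⟨val_Ico h hb, hb.1, fun n => ?_⟩
  rw [iter_val h _ hb, iter_val h _ hb, val_eq h (hb.sh n).1, sh_sh]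
  simp [sh]

lemma Codes.pre {a : ℕ → ℕ} {x : ℝ} (hc : Codes T φ a x) (n m : ℕ) :
    T^[n] x = pre φ m (sh n a) (T^[n+m] x) := by
  induction m generalizing n with
  | zero => rfl
  | succ m ih =>
    simp only [AS.pre]
    rw [sh_sh, show n + (m+1) = (n+1) + m by ring, ← ih (n+1)]
    simpa [sh] using (hc.2.2 n).symm

lemma exists_codes (h : IsSys T φ) {x : ℝ} (hx : x ∈ Ico (0:ℝ) 1) (hz : ∀ k, T^[k] x ≠ 0) :
    ∃ a, Codes T φ a x := by
  have key : ∀ n, ∃ d : ℕ, 1 ≤ d ∧ φ d (T^[n+1] x) = T^[n] x := by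
    intro n
    have hn := h.iter hx n
    have hn' : T^[n] x ∈ Ioo (0:ℝ) 1 := ⟨lt_of_le_of_ne hn.1 (Ne.symm (hz n)), hn.2⟩
    obtain ⟨d, hd, hφ⟩ := h.dig _ hn'
    exact ⟨d, hd, by rwa [Function.iterate_succ_apply']⟩
  choose a ha using key
  exact ⟨a, hx, fun n => (ha n).1, fun n => (ha n).2⟩

end Pool.Agent.R288.AS
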