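import Mathlib

/-! Hausdorff content on the real line. -/

namespace Pool.Agent.R288.AS
open Set MeasureTheory Filter Topology Metric
open scoped ENNReal NNReal

/-- Hausdorff content of exponent `s`. -/
noncomputable def hc (s : ℝ) : OuterMeasure ℝ :=
  OuterMeasure.boundedBy (fun A => ediam A ^ s)

lemma hc_apply {s : ℝ} (hs : 0 < s) (E : Set ℝ) :
    hc s E = ⨅ (t : ℕ → Set ℝ) (_ : E ⊆ iUnion t), ∑' n, ediam (t n) ^ s := by
  have h0 : (fun A : Set ℝ => ediam A ^ s) ∅ = 0 := by simp [hs]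
  rw [hc, OuterMeasure.boundedBy_eq_ofFunction h0, OuterMeasure.ofFunction_apply]

lemma hc_le_ediam (s : ℝ) (E : Set ℝ) : hc s E ≤ ediam E ^ s := OuterMeasure.boundedBy_le E

lemma hc_le_one {s : ℝ} (hs : 0 < s) {E : Set ℝ} (hE : E ⊆ Icc 0 1) : hc s E ≤ 1 := by
  refine (hc_le_ediam s E).trans ?_
  have h1 : ediam E ≤ 1 := by
    refine (ediam_mono hE).trans ?_
    rw [Real.ediam_Icc]; simp
  calc ediam E ^ s ≤ (1:ℝ≥0∞) ^ s := ENNReal.rpow_le_rpow h1 hs.le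
    _ = 1 := ENNReal.one_rpow s

lemma hc_image {s : ℝ} (hs : 0 < s) {E : Set ℝ} {f : ℝ → ℝ} {K : ℝ≥0} (hK : 0 < K)
    (hf : LipschitzOnWith K f E) :
    hc s (f '' E) ≤ (K:ℝ≥0∞) ^ s * hc s E := by
  rw [hc_apply hs, hc_apply hs]
  have hK0 : ((K:ℝ≥0∞)) ^ s ≠ 0 := by
    simp [ENNReal.rpow_eq_zero_iff, hK.ne', not_lt.2 hs.le]
  have hKt : ((K:ℝ≥0∞)) ^ s ≠ ∞ := ENNReal.rpow_ne_top_of_nonneg hs.le ENNReal.coe_ne_top
  rw [ENNReal.mul_iInf_of_ne hK0 hKt]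
  refine le_iInf fun t => ?_
  rw [ENNReal.mul_iInf_of_ne hK0 hKt]
  refine le_iInf fun ht => ?_
  refine iInf_le_of_le (fun n => f '' (t n ∩ E)) ?_
  refine iInf_le_of_le ?_ ?_
  · rintro _ ⟨x, hx, rfl⟩
    obtain ⟨n, hn⟩ := mem_iUnion.1 (ht hx)
    exact mem_iUnion.2 ⟨n, mem_image_of_mem f ⟨hn, hx⟩⟩
  · rw [← ENNReal.tsum_mul_left]
    refine ENNReal.tsum_le_tsum fun n => ?_
    rw [← ENNReal.mul_rpow_of_nonneg _ _ hs.le]
    refine ENNReal.rpow_le_rpow ?_ hs.le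
    have h1 : LipschitzOnWith K f (t n ∩ E) := hf.mono inter_subset_right
    have h2 : ediam (f '' (t n ∩ E)) ≤ K * ediam (t n ∩ E) := by
      rw [ediam_image_le_iff]
      intro x hx y hy
      exact (h1 hx hy).trans (by gcongr; exact edist_le_ediam_of_mem hx hy)
    exact h2.trans (by gcongr; exact inter_subset_left)

lemma haus_zero_of_hc {s : ℝ} (hs : 0 < s) {E : Set ℝ} (h : hc s E = 0) : μH[s] E = 0 := by
  have key : ∀ n : ℕ, ∃ t : ℕ → Set ℝ, E ⊆ iUnion t ∧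
      ∑' i, ediam (t i) ^ s < ((n:ℝ≥0∞) + 1)⁻¹ := by
    intro n
    have hpos : hc s E < ((n:ℝ≥0∞) + 1)⁻¹ := by
      rw [h]
      simp
    rw [hc_apply hs] at hpos
    obtain ⟨t, ht⟩ := iInf_lt_iff.1 hpos
    obtain ⟨h1, h2⟩ := iInf_lt_iff.1 ht
    exact ⟨t, h1, h2⟩
  choose t ht1 ht2 using key
  have hlim : Tendsto (fun n : ℕ => ((n:ℝ≥0∞) + 1)⁻¹) atTop (𝓝 0) := by
    have := ENNReal.tendsto_inv_nat_nhds_zero.comp (tendsto_add_atTop_nat 1)
    refine this.congr fun n => ?_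
    simp [Function.comp]
  have hlim2 : Tendsto (fun n : ℕ => (((n:ℝ≥0∞) + 1)⁻¹) ^ (1/s)) atTop (𝓝 0) := by
    have := (ENNReal.continuous_rpow_const (y := 1/s)).tendsto 0 |>.comp hlim
    have h0 : (0:ℝ≥0∞) ^ (1/s) = 0 := ENNReal.zero_rpow_of_pos (by positivity)
    rw [h0] at this
    exact this
  have hle := Measure.hausdorffMeasure_le_liminf_tsum (l := atTop) s E
    (fun n : ℕ => (((n:ℝ≥0∞) + 1)⁻¹) ^ (1/s)) hlim2 t
    (Eventually.of_forall fun n i => by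
      have h1 : ediam (t n i) ^ s ≤ ((n:ℝ≥0∞) + 1)⁻¹ :=
        (ENNReal.le_tsum i).trans (ht2 n).le
      calc ediam (t n i) = (ediam (t n i) ^ s) ^ (1/s) := by
            rw [← ENNReal.rpow_mul, mul_one_div_cancel hs.ne', ENNReal.rpow_one]
        _ ≤ _ := ENNReal.rpow_le_rpow h1 (by positivity))
    (Eventually.of_forall fun n => ht1 n)
  have hl0 : liminf (fun n => ∑' i, ediam (t n i) ^ s) atTop ≤ 0 := by
    have h2 : Tendsto (fun n => ∑' i, ediam (t n i) ^ s) atTop (𝓝 0) :=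
      tendsto_of_tendsto_of_tendsto_of_le_of_le tendsto_const_nhds hlim (fun _ => zero_le)
        (fun n => (ht2 n).le)
    rw [h2.liminf_eq]
  exact le_antisymm (hle.trans hl0) zero_le

lemma dimH_le_of_hc {s : ℝ} (hs : 0 < s) {E : Set ℝ} (h : hc s E = 0) :
    dimH E ≤ ENNReal.ofReal s := by
  have h1 := haus_zero_of_hc hs h
  have h2 : μH[((Real.toNNReal s : ℝ≥0) : ℝ)] E ≠ ∞ := by
    rw [Real.coe_toNNReal s hs.le, h1]; simp
  exact dimH_le_of_hausdorffMeasure_ne_top h2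

lemma hc_countable {s : ℝ} (hs : 0 < s) {E : Set ℝ} (h : E.Countable) : hc s E = 0 := by
  have h1 : ∀ x ∈ E, hc s {x} = 0 := by
    intro x _
    refine le_antisymm ((hc_le_ediam s {x}).trans ?_) zero_le
    rw [ediam_singleton, ENNReal.zero_rpow_of_pos hs]
  have h2 : E = ⋃ x ∈ E, {x} := by simp
  rw [h2]
  exact (measure_biUnion_null_iff h).2 h1

end Pool.Agent.R288.AS
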