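import Pool.Agent.R288.AS.Meas

/-! Adapted measures from densities. -/

namespace Pool.Agent.R288.AS
open Set MeasureTheory Filter Topology Metric
open scoped ENNReal NNReal

theorem isMeas_of_density {φ φ' : ℕ → ℝ → ℝ} {ρ : ℝ → ℝ} (hρ : Measurable ρ)
    (hφ : ∀ n, Measurable (φ n)) (hφ' : ∀ n, Measurable (φ' n))
    (hlo : ∀ u ∈ Ico (0:ℝ) 1, 1/2 ≤ ρ u) (hhi : ∀ u ∈ Ico (0:ℝ) 1, ρ u ≤ 1)
    (hpos : ∀ n, 1 ≤ n → ∀ u ∈ Ico (0:ℝ) 1, 0 ≤ ρ (φ n u))
    (hd : ∀ n, 1 ≤ n → ∀ u ∈ Ico (0:ℝ) 1, HasDerivAt (φ n) (φ' n u) u)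
    (hinj : ∀ n, 1 ≤ n → InjOn (φ n) (Ico (0:ℝ) 1))
    (hsum : ∀ j : ℕ, ∀ u ∈ Ico (0:ℝ) 1,
      ∑ n ∈ Finset.Icc 1 j, |φ' n u| * ρ (φ n u) ≤ (j:ℝ) / (j+1) * ρ u) :
    IsMeas φ ((volume.restrict (Ico (0:ℝ) 1)).withDensity (fun x => ENNReal.ofReal (ρ x))) := by
  have hae : ∀ᵐ u ∂(volume.restrict (Ico (0:ℝ) 1)), u ∈ Ico (0:ℝ) 1 :=
    ae_restrict_mem measurableSet_Ico
  refine ⟨fun s => ?_, fun s hs h0 => ?_, fun B hB hBm j => ?_⟩
  · have h1 : (volume.restrict (Ico (0:ℝ) 1)).withDensity (fun x => ENNReal.ofReal (ρ x)) ≤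
        (volume.restrict (Ico (0:ℝ) 1)).withDensity 1 := by
      refine withDensity_mono ?_
      filter_upwards [hae] with u hu
      simp only [Pi.one_apply]
      rw [← ENNReal.ofReal_one]
      exact ENNReal.ofReal_le_ofReal (hhi u hu)
    rw [withDensity_one] at h1
    exact (h1 s).trans (Measure.restrict_le_self s)
  · have h1 : (volume.restrict (Ico (0:ℝ) 1)).withDensity (fun _ => ENNReal.ofReal (1/2)) ≤
        (volume.restrict (Ico (0:ℝ) 1)).withDensity (fun x => ENNReal.ofReal (ρ x)) := by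
      refine withDensity_mono ?_
      filter_upwards [hae] with u hu
      exact ENNReal.ofReal_le_ofReal (hlo u hu)
    rw [withDensity_const] at h1
    have h2 := h1 s
    rw [h0] at h2
    have h3 : ENNReal.ofReal (1/2) * (volume.restrict (Ico (0:ℝ) 1)) s = 0 :=
      le_antisymm h2 zero_le
    have h4 : (volume.restrict (Ico (0:ℝ) 1)) s = 0 := by
      rcases mul_eq_zero.1 h3 with h5 | h5
      · exact absurd h5 (ENNReal.ofReal_pos.2 (by norm_num)).ne'
      · exact h5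
    rw [Measure.restrict_apply' measurableSet_Ico, inter_eq_self_of_subset_left hs] at h4
    exact h4
  · set γ := (volume.restrict (Ico (0:ℝ) 1)).withDensity (fun x => ENNReal.ofReal (ρ x)) with hγ
    have hγB : γ B = ∫⁻ u in B, ENNReal.ofReal (ρ u) := by
      rw [hγ, withDensity_apply _ hBm, Measure.restrict_restrict hBm,
        inter_eq_self_of_subset_left hB]
    have hterm : ∀ n ∈ Finset.Icc 1 j,
        γ (φ n '' B) ≤ ∫⁻ u in B, ENNReal.ofReal (|φ' n u| * ρ (φ n u)) := by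
      intro n hn
      have hn1 : 1 ≤ n := (Finset.mem_Icc.1 hn).1
      have hm : MeasurableSet (φ n '' B) := by
        refine hBm.image_of_continuousOn_injOn ?_ ((hinj n hn1).mono hB)
        intro u hu
        exact (hd n hn1 u (hB hu)).continuousAt.continuousWithinAt
      rw [hγ, withDensity_apply _ hm, Measure.restrict_restrict hm]
      calc ∫⁻ a in φ n '' B ∩ Ico 0 1, ENNReal.ofReal (ρ a)
          ≤ ∫⁻ a in φ n '' B, ENNReal.ofReal (ρ a) := lintegral_mono_set inter_subset_left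
        _ = ∫⁻ u in B, ENNReal.ofReal |φ' n u| * ENNReal.ofReal (ρ (φ n u)) :=
            lintegral_image_eq_lintegral_abs_deriv_mul hBm
              (fun u hu => (hd n hn1 u (hB hu)).hasDerivWithinAt) ((hinj n hn1).mono hB) _
        _ = _ := by
            refine lintegral_congr fun u => ?_
            rw [ENNReal.ofReal_mul (abs_nonneg _)]
    refine (Finset.sum_le_sum hterm).trans ?_
    rw [← lintegral_finsetSum _ (fun n _ => by
      exact ((hφ' n).abs.mul (hρ.comp (hφ n))).ennreal_ofReal), hγB,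
      ← lintegral_const_mul _ hρ.ennreal_ofReal]
    refine setLIntegral_mono (by fun_prop) fun u hu => ?_
    rw [← ENNReal.ofReal_sum_of_nonneg, ← ENNReal.ofReal_mul (by positivity)]
    · exact ENNReal.ofReal_le_ofReal (hsum j u (hB hu))
    · intro n hn
      exact mul_nonneg (abs_nonneg _) (hpos n (Finset.mem_Icc.1 hn).1 u (hB hu))

end Pool.Agent.R288.AS
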