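import Pool.Agent.R288.AS.Image

/-! The set of all dimensions of asymptotic sets is `[0, 1/2]`. -/

namespace Pool.Agent.R288.AS
open Set MeasureTheory Filter Topology Metric
open scoped ENNReal NNReal

variable {T : ℝ → ℝ} {φ : ℕ → ℝ → ℝ} {γ : Measure ℝ}

lemma zero_attained (h : IsSys T φ) : ∃ x ∈ Ico (0:ℝ) 1, dimH (AS T x) = 0 := by
  have hg : Good (fun _ => 2) := ⟨fun _ => by norm_num, fun N => ⟨N, le_rfl, le_rfl⟩⟩
  have hx := codes_val h hg
  obtain ⟨x, hxdef⟩ : ∃ x, x = val φ (fun _ => 2) := ⟨_, rfl⟩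
  rw [← hxdef] at hx
  refine ⟨x, hx.1, ?_⟩
  obtain ⟨η, hη0, hsep0⟩ := h.sep 2
  have hsep : SepAt φ 2 η := hsep0
  have key : ∀ s : ℝ, 0 < s → dimH (AS T x) ≤ ENNReal.ofReal s := by
    intro s hs0
    have hr0 : (0:ℝ) ≤ (2:ℝ)^(-(2*s)) := by positivity
    have hr1 : (2:ℝ)^(-(2*s)) < 1 := Real.rpow_lt_one_of_one_lt_of_neg (by norm_num) (by linarith)
    have h1 : ∀ k n : ℕ, XX T s x η n ≤ ((2:ℝ)^(-(2*s)))^k := by
      intro k
      induction k with
      | zero => intro n; simpa using XX_le_one hs0 x η n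
      | succ k ih =>
        intro n
        refine (XX_two h hs0 hx.1 hsep (hx.2.2 n)).trans ?_
        rw [pow_succ']
        have := ih (n+1)
        gcongr
    have h2 : ∀ n, XX T s x η n = 0 := by
      intro n
      refine le_antisymm ?_ (XX_nonneg s x η n)
      exact ge_of_tendsto' (tendsto_pow_atTop_nhds_zero_of_lt_one hr0 hr1) fun k => h1 k n
    refine dimH_le_of_hc hs0 (hc_AS h hs0 hη0 (x := x) fun N => ⟨N, le_rfl, ?_⟩)
    have h3 := h2 N
    rw [XX, ENNReal.toReal_eq_zero_iff] at h3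
    exact h3.resolve_right (hc_EE_ne_top hs0 x η _)
  refine le_antisymm ?_ zero_le
  refine ENNReal.le_of_forall_pos_le_add fun ε hε _ => ?_
  rw [zero_add]
  have := key ε hε
  rwa [ENNReal.ofReal_coe_nnreal] at this

lemma mid_attained (h : IsSys T φ) {α : ℝ} (h0 : 0 < α) (h2 : α < 1/2) :
    ∃ x ∈ Ico (0:ℝ) 1, dimH (AS T x) = ENNReal.ofReal α := by
  obtain ⟨A, hAdef⟩ : ∃ A : ℝ, A = 1/α - 1 := ⟨_, rfl⟩
  have hA : 1 < A := by
    have : 2 < 1/α := by rw [lt_div_iff₀ h0]; linarith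
    linarith
  have hαA : α * (A + 1) = 1 := by rw [hAdef]; field_simp; ring
  refine ⟨val φ (dd A), val_Ico h (dd_good hA), le_antisymm ?_ ?_⟩
  · refine ENNReal.le_of_forall_pos_le_add fun ε hε _ => ?_
    have hε' : (0:ℝ) < ε := hε
    obtain ⟨s, hs1, hs2⟩ : ∃ s, α < s ∧ s < min (1/2) (α + ε) :=
      exists_between (lt_min h2 (by linarith))
    have hs3 := hs2.trans_le (min_le_left _ _)
    have hs4 := hs2.trans_le (min_le_right _ _)
    refine (dd_upper h hA (by linarith) hs3 (by nlinarith)).trans ?_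
    have h5 : (ε : ℝ≥0∞) = ENNReal.ofReal (ε:ℝ) := by rw [ENNReal.ofReal_coe_nnreal]
    rw [h5, ← ENNReal.ofReal_add h0.le hε'.le]
    exact ENNReal.ofReal_le_ofReal hs4.le
  · refine ofReal_le_of_forall_lt h0 fun s hs0 hs1 => ?_
    exact dd_lower h hA hs0 (by nlinarith)

theorem image_eq (h : IsSys T φ) (hγ : IsMeas φ γ) :
    {d : ℝ≥0∞ | ∃ x ∈ Ico (0:ℝ) 1, dimH (AS T x) = d} = Icc 0 (1/2) := by
  have hhalf : (1/2 : ℝ≥0∞) = ENNReal.ofReal (1/2) := by
    rw [ENNReal.ofReal_div_of_pos (by norm_num)]; simp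
  ext d
  constructor
  · rintro ⟨x, hx, rfl⟩
    exact ⟨zero_le, dimH_AS_le h hx⟩
  · rintro ⟨_, hd⟩
    have hdt : d ≠ ∞ := by
      refine ne_top_of_le_ne_top ?_ hd
      rw [hhalf]; exact ENNReal.ofReal_ne_top
    have hdr : d = ENNReal.ofReal d.toReal := (ENNReal.ofReal_toReal hdt).symm
    have hd2 : d.toReal ≤ 1/2 := by
      rw [hhalf] at hd
      have := ENNReal.toReal_mono ENNReal.ofReal_ne_top hd
      rwa [ENNReal.toReal_ofReal (by norm_num)] at this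
    have hd0 : 0 ≤ d.toReal := ENNReal.toReal_nonneg
    rcases eq_or_lt_of_le hd0 with h1 | h1
    · obtain ⟨x, hx, hx0⟩ := zero_attained h
      refine ⟨x, hx, ?_⟩
      rw [hx0, hdr, ← h1]; simp
    · rcases eq_or_lt_of_le hd2 with h3 | h3
      · obtain ⟨x, hx, hx0⟩ := exists_half h hγ
        refine ⟨x, hx, ?_⟩
        rw [hx0, hdr, h3, hhalf]
      · obtain ⟨x, hx, hx0⟩ := mid_attained h h1 h3
        exact ⟨x, hx, hx0.trans hdr.symm⟩

end Pool.Agent.R288.AS
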