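import Pool.Agent.R288.AS.Dens

/-! The Gauss map. -/

namespace Pool.Agent.R288.AS
open Set MeasureTheory Filter Topology Metric
open scoped ENNReal NNReal

/-- The Gauss map. -/
noncomputable def gauss (x : ℝ) : ℝ := if x = 0 then 0 else 1 / x - ⌊1 / x⌋

/-- Inverse branches of the Gauss map. -/
noncomputable def gphi (n : ℕ) (u : ℝ) : ℝ := 1 / ((n:ℝ) + u)

lemma gauss_sub {n : ℕ} (hn : 1 ≤ n) {u v : ℝ} (hu : 0 ≤ u) (hv : 0 ≤ v) :
    |gphi n u - gphi n v| = |u - v| / (((n:ℝ) + u) * (n + v)) := by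
  have hn' : (1:ℝ) ≤ n := by exact_mod_cast hn
  have h1 : (0:ℝ) < n + u := by linarith
  have h2 : (0:ℝ) < n + v := by linarith
  rw [gphi, gphi, div_sub_div _ _ h1.ne' h2.ne', abs_div, abs_of_pos (mul_pos h1 h2)]
  congr 1
  rw [abs_sub_comm u v]
  congr 1
  ring

theorem gauss_isSys : IsSys gauss gphi where
  lo n hn u hu := by
    have hn' : (1:ℝ) ≤ n := by exact_mod_cast hn
    exact one_div_le_one_div_of_le (by linarith [hu.1]) (by linarith [hu.2])
  hi n hn u hu := by
    have hn' : (1:ℝ) ≤ n := by exact_mod_cast hn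
    exact one_div_le_one_div_of_le (by linarith) (by linarith [hu.1])
  inv n hn u hu := by
    have hn' : (1:ℝ) ≤ n := by exact_mod_cast hn
    have h1 : (0:ℝ) < n + u := by linarith [hu.1]
    have h2 : gphi n u ≠ 0 := by
      rw [gphi]; positivity
    rw [gauss, if_neg h2, gphi, one_div_one_div]
    have h3 : ⌊(n:ℝ) + u⌋ = n := by
      rw [Int.floor_natCast_add, Int.floor_eq_zero_iff.2 hu, add_zero]
    rw [h3]
    push_cast
    ring
  zero := by simp [gauss]
  maps x hx := by
    rw [gauss]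
    split_ifs with h0
    · exact ⟨le_rfl, one_pos⟩
    · exact ⟨by linarith [Int.floor_le (1/x)], by linarith [Int.lt_floor_add_one (1/x)]⟩
  dig x hx := by
    have h0 : x ≠ 0 := hx.1.ne'
    have h1 : (1:ℝ) < 1 / x := by rw [lt_div_iff₀ hx.1]; linarith [hx.2]
    have h2 : (0:ℤ) ≤ ⌊1/x⌋ := Int.floor_nonneg.2 (by linarith)
    obtain ⟨n, hn⟩ := Int.eq_ofNat_of_zero_le h2
    have h3 : (1:ℤ) ≤ ⌊1/x⌋ := Int.le_floor.2 (by push_cast; exact h1.le)
    refine ⟨n, by omega, ?_⟩
    rw [gphi, gauss, if_neg h0, hn]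
    push_cast
    rw [show (n:ℝ) + (1/x - n) = 1/x by ring, one_div_one_div]
  lip n hn u hu v hv := by
    have hn' : (1:ℝ) ≤ n := by exact_mod_cast hn
    rw [gauss_sub hn hu.1 hv.1]
    apply div_le_div_of_nonneg_left (abs_nonneg _) (by positivity)
    have := hu.1
    have := hv.1
    nlinarith [mul_nonneg hu.1 hv.1]
  alip n hn u hu v hv := by
    have hn' : (1:ℝ) ≤ n := by exact_mod_cast hn
    rw [gauss_sub hn hu.1 hv.1]
    apply div_le_div_of_nonneg_left (abs_nonneg _)
    · have := hu.1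
      have := hv.1
      positivity
    · have h1 := hu.1
      have h2 := hv.1
      have h3 := hu.2
      have h4 := hv.2
      have h5 : (n:ℝ) + u ≤ n + 1 := by linarith
      have h6 : (n:ℝ) + v ≤ n + 1 := by linarith
      calc ((n:ℝ) + u) * (n + v) ≤ (n + 1) * (n + 1) :=
            mul_le_mul h5 h6 (by linarith) (by linarith)
        _ = _ := by ring
  two n m hn hm u hu v hv := by
    have hn' : (1:ℝ) ≤ n := by exact_mod_cast hn
    have hm' : (1:ℝ) ≤ m := by exact_mod_cast hm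
    have h1 := hu.1
    have h2 := hv.1
    have p1 : (0:ℝ) < m + u := by linarith
    have p2 : (0:ℝ) < m + v := by linarith
    have q1 : (0:ℝ) ≤ gphi m u := by rw [gphi]; positivity
    have q2 : (0:ℝ) ≤ gphi m v := by rw [gphi]; positivity
    rw [gauss_sub hn q1 q2, gauss_sub hm h1 h2, div_div]
    apply div_le_div_of_nonneg_left (abs_nonneg _) (by norm_num)
    have e1 : ((m:ℝ) + u) * (n + gphi m u) = n * (m + u) + 1 := by
      rw [gphi]; field_simp
    have e2 : ((m:ℝ) + v) * (n + gphi m v) = n * (m + v) + 1 := by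
      rw [gphi]; field_simp
    have e3 : ((m:ℝ) + u) * (m + v) * ((n + gphi m u) * (n + gphi m v)) =
        (n * (m + u) + 1) * (n * (m + v) + 1) := by
      rw [← e1, ← e2]; ring
    rw [e3]
    have f1 : (1:ℝ) ≤ n * (m + u) := by nlinarith
    have f2 : (1:ℝ) ≤ n * (m + v) := by nlinarith
    nlinarith
  sep K := by
    have hK : (0:ℝ) ≤ K := by positivity
    refine ⟨1 / (4 * ((K:ℝ)+1)^2), by positivity, ?_⟩
    intro m n hm hmK hn u hu v hv huv hd
    have hη0 : (0:ℝ) < 1 / (4 * ((K:ℝ)+1)^2) := by positivity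
    have hηe : 1 / (4 * ((K:ℝ)+1)^2) * (4 * ((K:ℝ)+1)^2) = 1 := by field_simp
    set η : ℝ := 1 / (4 * ((K:ℝ)+1)^2) with hη
    have hη1 : η ≤ 1/4 := by
      rw [hη]
      apply one_div_le_one_div_of_le (by norm_num)
      nlinarith
    have hη2 : η ≤ 1 / (2 * ((K:ℝ)+1)) := by
      rw [hη]
      apply one_div_le_one_div_of_le (by positivity)
      nlinarith
    by_contra hne
    have hn' : (1:ℝ) ≤ n := by exact_mod_cast hn
    have hm' : (1:ℝ) ≤ m := by exact_mod_cast hm
    have hmK' : (m:ℝ) ≤ K := by exact_mod_cast hmK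
    obtain ⟨P, hP⟩ : ∃ P : ℝ, P = (n:ℝ) + u := ⟨_, rfl⟩
    obtain ⟨Q, hQ⟩ : ∃ Q : ℝ, Q = (m:ℝ) + v := ⟨_, rfl⟩
    have hP0 : 1 ≤ P := by rw [hP]; linarith [hu.1]
    have hQ0 : 1 ≤ Q := by rw [hQ]; linarith [hv.1]
    have hQK : Q < K + 1 := by rw [hQ]; linarith [hv.2]
    rw [gphi, gphi, ← hP, ← hQ] at hd
    have hPK : P < 2 * (K + 1) := by
      have h1 : 1 / ((K:ℝ) + 1) < 1 / Q := one_div_lt_one_div_of_lt (by linarith) hQK
      have h2 := (abs_lt.1 hd).1
      have h3 : 1 / (2 * ((K:ℝ)+1)) + 1 / (2 * ((K:ℝ)+1)) = 1 / ((K:ℝ)+1) := by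
        field_simp; norm_num
      have h4 : 1 / (2 * ((K:ℝ)+1)) < 1 / P := by linarith
      rwa [one_div_lt_one_div (by positivity) (by linarith)] at h4
    have hPQ : |P - Q| < η * (P * Q) := by
      have h1 : 1/P - 1/Q = (Q - P)/(P*Q) := by
        rw [div_sub_div _ _ (by linarith) (by linarith)]
        ring
      rw [h1, abs_div, abs_of_pos (by positivity : 0 < P * Q), div_lt_iff₀ (by positivity)] at hd
      rwa [abs_sub_comm]
    have hPQ2 : η * (P * Q) ≤ 1/2 := by
      have h1 : P * Q ≤ (2 * (K+1)) * (K+1) := by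
        apply mul_le_mul hPK.le hQK.le (by linarith) (by positivity)
      calc η * (P * Q) ≤ η * ((2 * (K+1)) * (K+1)) := by gcongr
        _ = (η * (4 * ((K:ℝ)+1)^2)) / 2 := by ring
        _ = 1/2 := by rw [hηe]
    have hge : 1 ≤ |(n:ℝ) - m| := by
      have h1 : (n:ℤ) - m ≠ 0 := by
        intro h2; apply hne; omega
      have h2 : 1 ≤ |(n:ℤ) - m| := Int.one_le_abs h1
      exact_mod_cast h2
    have h3 : |(n:ℝ) - m| ≤ |P - Q| + |u - v| := by
      have : (n:ℝ) - m = (P - Q) - (u - v) := by rw [hP, hQ]; ring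
      rw [this]
      exact abs_sub _ _
    linarith
  one u hu h1 := by
    left
    have h2 : (0:ℝ) < 1 + u := by linarith [hu.1]
    rw [gphi, Nat.cast_one, div_eq_one_iff_eq h2.ne'] at h1
    linarith

/-- The Gauss measure (not normalized). -/
noncomputable def gmeas : Measure ℝ :=
  (volume.restrict (Ico (0:ℝ) 1)).withDensity (fun x => ENNReal.ofReal (1 / (1 + x)))

theorem gauss_isMeas : IsMeas gphi gmeas := by
  refine isMeas_of_density (φ' := fun n u => -1 / ((n:ℝ) + u)^2) (by fun_prop)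
    (fun n => by unfold gphi; fun_prop) (fun n => by fun_prop) ?_ ?_ ?_ ?_ ?_ ?_
  · intro u hu
    apply one_div_le_one_div_of_le (by linarith [hu.1]) (by linarith [hu.2])
  · intro u hu
    rw [div_le_one (by linarith [hu.1])]; linarith [hu.1]
  · intro n hn u hu
    have := hu.1
    rw [gphi]; positivity
  · intro n hn u hu
    have hn' : (1:ℝ) ≤ n := by exact_mod_cast hn
    have h1 : (n:ℝ) + u ≠ 0 := by linarith [hu.1]
    have h2 : HasDerivAt (fun u : ℝ => (n:ℝ) + u) 1 u := by
      simpa using (hasDerivAt_id u).const_add (n:ℝ)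
    have h3 := h2.inv h1
    have h4 : gphi n = fun u : ℝ => ((n:ℝ) + u)⁻¹ := by
      funext u; rw [gphi, one_div]
    rw [h4]; exact h3
  · intro n hn u hu v hv huv
    have hn' : (1:ℝ) ≤ n := by exact_mod_cast hn
    rw [gphi, gphi, one_div, one_div, inv_inj] at huv
    linarith
  · intro j u hu
    have hu0 := hu.1
    have key : ∑ n ∈ Finset.Icc 1 j, |-1 / ((n:ℝ) + u)^2| * (1 / (1 + gphi n u)) =
        (j:ℝ) / ((1 + u) * (j + 1 + u)) := by
      induction j with
      | zero => simp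
      | succ j ih =>
        rw [Finset.sum_Icc_succ_top (by omega), ih, abs_div, abs_neg, abs_one,
          abs_of_nonneg (by positivity), gphi]
        push_cast
        have h1 : (0:ℝ) < 1 + u := by linarith
        have h2 : (0:ℝ) < (j:ℝ) + 1 + u := by positivity
        have h3 : (0:ℝ) < (j:ℝ) + 1 + 1 + u := by positivity
        have h4 : 1 + 1 / ((j:ℝ) + 1 + u) = (j + 1 + 1 + u)/ (j+1+u) := by
          field_simp; ring
        rw [h4]
        field_simp
        ring
    rw [key]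
    rw [div_mul_div_comm, mul_one, div_le_div_iff₀ (by positivity) (by positivity)]
    have : ((j:ℝ)+1) * (1 + u) ≤ (1 + u) * (j + 1 + u) := by nlinarith
    have hj : (0:ℝ) ≤ j := by positivity
    nlinarith

end Pool.Agent.R288.AS
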