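import Pool.Agent.R288.AS.Meas

/-! Every value in `(0, 1/2)` is the dimension of an asymptotic set. -/

namespace Pool.Agent.R288.AS
open Set MeasureTheory Filter Topology Metric
open scoped ENNReal NNReal

variable {T : ℝ → ℝ} {φ : ℕ → ℝ → ℝ}

/-- Gaps. -/
noncomputable def gg (A : ℝ) (j : ℕ) : ℕ := ⌈A^j⌉₊

/-- Positions. -/
noncomputable def pp (A : ℝ) (j : ℕ) : ℕ := ∑ l ∈ Finset.range j, gg A l

/-- Digits. -/
noncomputable def dd (A : ℝ) : ℕ → ℕ := Function.extend (pp A) (fun j => j + 3) (fun _ => 2)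

lemma gg_pos {A : ℝ} (hA : 1 < A) (j : ℕ) : 1 ≤ gg A j :=
  Nat.one_le_iff_ne_zero.2 (Nat.ceil_pos.2 (by positivity)).ne'

lemma pp_succ (A : ℝ) (j : ℕ) : pp A (j+1) = pp A j + gg A j := Finset.sum_range_succ _ _

lemma pp_mono {A : ℝ} (hA : 1 < A) : StrictMono (pp A) :=
  strictMono_nat_of_lt_succ fun j => by rw [pp_succ]; have := gg_pos hA j; omega

lemma dd_at {A : ℝ} (hA : 1 < A) (j : ℕ) : dd A (pp A j) = j + 3 :=
  (pp_mono hA).injective.extend_apply _ _ _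

lemma dd_off {A : ℝ} {n : ℕ} (hn : ¬ ∃ j, pp A j = n) : dd A n = 2 :=
  Function.extend_apply' _ _ _ hn

lemma dd_two {A : ℝ} (hA : 1 < A) (n : ℕ) : 2 ≤ dd A n := by
  by_cases hn : ∃ j, pp A j = n
  · obtain ⟨j, rfl⟩ := hn
    rw [dd_at hA]; omega
  · rw [dd_off hn]

lemma dd_good {A : ℝ} (hA : 1 < A) : Good (dd A) :=
  ⟨fun n => le_trans (by norm_num) (dd_two hA n), fun N => ⟨N, le_rfl, dd_two hA N⟩⟩

lemma prod_ext {p : ℕ → ℕ} (hp : StrictMono p) (f : ℕ → ℝ) (i : ℕ) :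
    ∏ n ∈ Finset.range (p i), Function.extend p f (fun _ => 1) n = ∏ l ∈ Finset.range i, f l := by
  have h3 : ∏ n ∈ Finset.range (p i), Function.extend p f (fun _ => 1) n =
      ∏ n ∈ (Finset.range i).image p, Function.extend p f (fun _ => 1) n := by
    symm
    refine Finset.prod_subset ?_ ?_
    · intro n hn
      obtain ⟨l, hl, rfl⟩ := Finset.mem_image.1 hn
      exact Finset.mem_range.2 (hp (Finset.mem_range.1 hl))
    · intro n hn hn'
      apply Function.extend_apply'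
      rintro ⟨l, rfl⟩
      apply hn'
      refine Finset.mem_image_of_mem p (Finset.mem_range.2 ?_)
      exact hp.lt_iff_lt.1 (Finset.mem_range.1 hn)
  rw [h3, Finset.prod_image (fun _ _ _ _ hh => hp.injective hh)]
  exact Finset.prod_congr rfl fun l _ => hp.injective.extend_apply _ _ _

lemma dd_prod {A : ℝ} (hA : 1 < A) (i : ℕ) :
    ∏ n ∈ Finset.range (pp A i), ((dd A n : ℝ) + 1)^2 ≤ 2^(4 * pp A i + (i * i + 3 * i)) := by
  have hp := pp_mono hA
  have h1 : ∏ n ∈ Finset.range (pp A i), ((dd A n : ℝ) + 1)^2 ≤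
      ∏ n ∈ Finset.range (pp A i),
        ((2:ℝ)^4 * Function.extend (pp A) (fun l => (2:ℝ)^(2*l+4)) (fun _ => 1) n) := by
    refine Finset.prod_le_prod (fun n _ => by positivity) fun n _ => ?_
    by_cases hn : ∃ j, pp A j = n
    · obtain ⟨j, rfl⟩ := hn
      rw [dd_at hA, hp.injective.extend_apply]
      have h2 : ∀ j : ℕ, j + 4 ≤ 2^(j+2) := by
        intro j
        induction j with
        | zero => norm_num
        | succ j ih => rw [show j + 1 + 2 = (j + 2) + 1 by ring, pow_succ]; omega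
      have h3 : (((j + 3 : ℕ) : ℝ) + 1) ≤ 2^(j+2) := by exact_mod_cast h2 j
      have h4 : (((j + 3 : ℕ) : ℝ) + 1)^2 ≤ (2:ℝ)^(2*j+4) := by
        rw [show 2 * j + 4 = (j+2) * 2 by ring, pow_mul]
        gcongr
      have h5 : (0:ℝ) ≤ (2:ℝ)^(2*j+4) := by positivity
      linarith
    · rw [dd_off hn, Function.extend_apply' _ _ _ hn]
      norm_num
  refine h1.trans (le_of_eq ?_)
  rw [Finset.prod_mul_distrib, prod_ext hp, Finset.prod_const, Finset.card_range,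
    Finset.prod_pow_eq_pow_sum, ← pow_mul, ← pow_add]
  congr 2
  clear h1
  induction i with
  | zero => simp
  | succ i ih => rw [Finset.sum_range_succ, ih]; ring

lemma pp_le {A : ℝ} (hA : 1 < A) (i : ℕ) : (pp A i : ℝ) ≤ i + A^i / (A - 1) := by
  have hA1 : 0 < A - 1 := by linarith
  have h : (pp A i : ℝ) ≤ i + (A^i - 1) / (A - 1) := by
    induction i with
    | zero => simp [pp]
    | succ i ih =>
      rw [pp_succ]
      push_cast
      have h1 : (gg A i : ℝ) < A^i + 1 := Nat.ceil_lt_add_one (by positivity)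
      have h2 : (A^(i+1) - 1) / (A - 1) = (A^i - 1)/(A - 1) + A^i := by
        field_simp; ring
      rw [h2]; linarith
  refine h.trans ?_
  gcongr
  linarith

/-- Exponents. -/
noncomputable def eE (A lam : ℝ) (j : ℕ) : ℕ := ⌈lam * A^j⌉₊

lemma ES_eE_ge {A lam : ℝ} (hA : 1 < A) (i : ℕ) :
    lam * (A^i - 1) / (A - 1) ≤ ES (eE A lam) i := by
  have hA1 : 0 < A - 1 := by linarith
  induction i with
  | zero => simp [ES]
  | succ i ih =>
    rw [ES_succ]
    push_cast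
    have h1 : lam * A^i ≤ eE A lam i := Nat.le_ceil _
    have h2 : lam * (A^(i+1) - 1) / (A - 1) = lam * (A^i - 1)/(A - 1) + lam * A^i := by
      field_simp; ring
    rw [h2]; linarith

lemma poly_le_pow {A : ℝ} (hA : 1 < A) : ∃ M : ℝ, 0 < M ∧ ∀ i : ℕ,
    (i:ℝ)^2 + 11 * i + 5 ≤ M * A^i := by
  have h1 := tendsto_pow_const_div_const_pow_of_one_lt 2 hA
  obtain ⟨M0, hM0⟩ := h1.bddAbove_range
  have hM : ∀ n : ℕ, (n:ℝ)^2 ≤ M0 * A^n := by
    intro n
    have := hM0 (mem_range_self n)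
    rwa [div_le_iff₀ (by positivity)] at this
  have hM0' : 0 ≤ M0 := by
    have := hM 0
    simp at this; exact this
  refine ⟨12 * M0 + 5, by linarith, fun i => ?_⟩
  have h2 := hM i
  have h3 : (1:ℝ) ≤ A^i := one_le_pow₀ hA.le
  have h4 : (i:ℝ) ≤ (i:ℝ)^2 := by exact_mod_cast (Nat.le_self_pow (by norm_num) i)
  nlinarith

lemma dd_lower (h : IsSys T φ) {A : ℝ} (hA : 1 < A) {s : ℝ} (hs0 : 0 < s)
    (hs : s * (A + 1) < 1) : ENNReal.ofReal s ≤ dimH (AS T (val φ (dd A))) := by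
  have hA1 : 0 < A - 1 := by linarith
  have hs2 : s < 1/2 := by nlinarith
  obtain ⟨M, hM0, hM⟩ := poly_le_pow hA
  have hδ : 0 < 1 - s * (A+1) := by linarith
  obtain ⟨lam, hlam1, hlam⟩ : ∃ lam : ℝ, 1 ≤ lam ∧
      4 * s + s * M * (A - 1) ≤ lam * (1 - s * (A+1)) := by
    refine ⟨max 1 ((4 * s + s * M * (A - 1)) / (1 - s * (A+1))), le_max_left _ _, ?_⟩
    rw [← div_le_iff₀ hδ]
    exact le_max_right _ _
  have heE : ∀ i : ℕ, (i:ℝ) * (A - 1) ≤ eE A lam i := by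
    intro i
    have h1 : lam * A^i ≤ eE A lam i := Nat.le_ceil _
    have h2 : 1 + (i:ℝ) * (A - 1) ≤ A^i := by
      have := one_add_mul_le_pow (by linarith : (-2:ℝ) ≤ A - 1) i
      simpa using this
    have h3 : (0:ℝ) < A^i := by positivity
    nlinarith
  refine le_dimH_AS h (codes_val h (dd_good hA)) (pp_mono hA) ?_ (e := eE A lam) ?_ ?_
    (w := fun i => 4 * pp A i + (i * i + 3 * i)) (dd_prod hA) hs0 (by linarith)
    (C := (1 - 2*s) * lam / (A - 1)) ?_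
  · refine tendsto_atTop_mono (fun i => ?_) tendsto_id
    rw [dd_at hA]; simp only [id]; omega
  · have h1 : Tendsto (fun i : ℕ => (i:ℝ) * (A - 1)) atTop atTop :=
      tendsto_natCast_atTop_atTop.atTop_mul_const hA1
    exact tendsto_natCast_atTop_iff.1 (tendsto_atTop_mono heE h1)
  · intro i
    exact Nat.one_le_iff_ne_zero.2 (Nat.ceil_pos.2 (by positivity)).ne'
  · intro i
    have h1 : (eE A lam i : ℝ) < lam * A^i + 1 := Nat.ceil_lt_add_one (by positivity)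
    have h2 := ES_eE_ge (lam := lam) hA i
    have h3 := pp_le hA i
    have h4 := hM i
    push_cast
    have h5 : (4 * (pp A i : ℝ) + (i * i + 3 * i)) + 4 * i + 4 ≤
        4 * (A^i / (A-1)) + (i^2 + 11 * i + 4) := by nlinarith
    have h6 : s * (eE A lam i : ℝ) + s * (4 * (pp A i : ℝ) + (i * i + 3 * i) + 4 * i + 4) ≤
        s * (lam * A^i + 1) + s * (4 * (A^i / (A-1)) + (i^2 + 11 * i + 4)) := by
      gcongr
    refine h6.trans ?_
    have h7 : (1 - 2*s) * (lam * (A^i - 1) / (A - 1)) ≤ (1 - 2*s) * ES (eE A lam) i :=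
      mul_le_mul_of_nonneg_left h2 (by linarith)
    refine le_trans ?_ (add_le_add_left h7 _)
    have h8 : (1 - 2*s) * (lam * (A^i - 1) / (A - 1)) + (1 - 2*s) * lam / (A - 1) =
        (1 - 2*s) * lam * A^i / (A - 1) := by field_simp; ring
    rw [h8, le_div_iff₀ hA1]
    have h9 : s * (lam * A^i + 1) + s * (4 * (A^i / (A-1)) + (i^2 + 11 * i + 4)) ≤
        s * lam * A^i + 4 * s * (A^i / (A-1)) + s * M * A^i := by nlinarith
    have h10 : (0:ℝ) < A^i := by positivity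
    calc (s * (lam * A^i + 1) + s * (4 * (A^i / (A-1)) + (i^2 + 11 * i + 4))) * (A - 1)
        ≤ (s * lam * A^i + 4 * s * (A^i / (A-1)) + s * M * A^i) * (A - 1) := by gcongr
      _ = (s * lam * (A - 1) + (4 * s + s * M * (A - 1))) * A^i := by field_simp; ring
      _ ≤ (s * lam * (A - 1) + lam * (1 - s * (A+1))) * A^i := by gcongr
      _ = (1 - 2*s) * lam * A^i := by ring

lemma sum_rpow_le {s : ℝ} (hs0 : 0 < s) (hs2 : s < 1/2) (B : ℕ) :
    ∑ d ∈ Finset.Icc 1 B, (d:ℝ)^(-(2*s)) ≤ 1 / (1 - 2*s) * (B:ℝ)^(1 - 2*s) := by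
  have hq0 : 0 < 1 - 2*s := by linarith
  have hq1 : 1 - 2*s ≤ 1 := by linarith
  induction B with
  | zero =>
    simp [Real.zero_rpow hq0.ne']
  | succ B ih =>
    rw [Finset.sum_Icc_succ_top (by omega)]
    have hB0 : (0:ℝ) ≤ B := by positivity
    have hB1 : (0:ℝ) < (B:ℝ) + 1 := by positivity
    have h1 := rpow_one_add_le_one_add_mul_self (s := -1/((B:ℝ)+1)) (by
      rw [neg_div, neg_le_neg_iff, div_le_one hB1]; linarith) hq0.le hq1
    have h2 : 1 + -1/((B:ℝ)+1) = B / (B+1) := by field_simp; ring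
    rw [h2, Real.div_rpow hB0 hB1.le, div_le_iff₀ (by positivity)] at h1
    have h3 : ((B:ℝ)+1)^(-(2*s)) = ((B:ℝ)+1)^(1 - 2*s) / (B+1) := by
      rw [show -(2*s) = (1 - 2*s) - 1 by ring, Real.rpow_sub hB1, Real.rpow_one]
    push_cast
    rw [h3]
    have h4 : (1 + (1 - 2*s) * (-1/((B:ℝ)+1))) * ((B:ℝ)+1)^(1 - 2*s) =
        ((B:ℝ)+1)^(1 - 2*s) - (1 - 2*s) * (((B:ℝ)+1)^(1 - 2*s) / (B+1)) := by
      ring
    rw [h4] at h1
    have h5 : 1 / (1 - 2*s) * (B:ℝ)^(1 - 2*s) ≤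
        1 / (1 - 2*s) * (((B:ℝ)+1)^(1 - 2*s) - (1 - 2*s) * (((B:ℝ)+1)^(1 - 2*s) / (B+1))) := by
      gcongr
    have h6 : 1 / (1 - 2*s) * (((B:ℝ)+1)^(1 - 2*s) - (1 - 2*s) * (((B:ℝ)+1)^(1 - 2*s) / (B+1))) =
        1 / (1 - 2*s) * ((B:ℝ)+1)^(1 - 2*s) - ((B:ℝ)+1)^(1 - 2*s) / (B+1) := by
      field_simp
    linarith

/-- Content recursion at a point with arbitrary next digit. -/
lemma hc_rec (h : IsSys T φ) {s : ℝ} (hs0 : 0 < s) (x η : ℝ) (n B : ℕ) (hB : 1 ≤ B) :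
    hc s (EE T x η n) ≤ ENNReal.ofReal (∑ d ∈ Finset.Icc 1 B, (d:ℝ)^(-(2*s))) *
      hc s (EE T x η (n+1)) + ENNReal.ofReal ((B:ℝ)^(-s)) := by
  have hBr : (0:ℝ) < B := by exact_mod_cast hB
  have hsub : EE T x η n ⊆ (⋃ d ∈ Finset.Icc 1 B, φ d '' EE T x η (n+1)) ∪ Icc (0:ℝ) (1/B) := by
    intro z hz
    obtain ⟨d, hd, hφ, hTz⟩ := EE_digit h hz
    by_cases hdB : d ≤ B
    · left
      exact mem_iUnion₂.2 ⟨d, Finset.mem_Icc.2 ⟨hd, hdB⟩, T z, hTz, hφ⟩
    · right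
      push Not at hdB
      refine ⟨hz.1.1, ?_⟩
      have h1 := h.hi d hd (T z) ⟨(h.maps z hz.1).1, (h.maps z hz.1).2.le⟩
      rw [hφ] at h1
      refine h1.trans (one_div_le_one_div_of_le hBr ?_)
      exact_mod_cast hdB.le
  refine (measure_mono hsub).trans ((measure_union_le _ _).trans ?_)
  refine add_le_add ?_ ?_
  · refine (measure_biUnion_finset_le _ _).trans ?_
    rw [ENNReal.ofReal_sum_of_nonneg (fun d _ => by positivity), Finset.sum_mul]
    refine Finset.sum_le_sum fun d hd => ?_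
    exact hc_phi h hs0 (Finset.mem_Icc.1 hd).1 fun z hz => ⟨hz.1.1, hz.1.2.le⟩
  · refine (hc_le_ediam s _).trans (le_of_eq ?_)
    rw [Real.ediam_Icc, sub_zero, ENNReal.ofReal_rpow_of_pos (by positivity)]
    congr 1
    rw [one_div, Real.inv_rpow hBr.le, Real.rpow_neg hBr.le]

/-- Real form of the content. -/
noncomputable def XX (T : ℝ → ℝ) (s x η : ℝ) (n : ℕ) : ℝ := (hc s (EE T x η n)).toReal

lemma hc_EE_ne_top {s : ℝ} (hs0 : 0 < s) (x η : ℝ) (n : ℕ) : hc s (EE T x η n) ≠ ∞ :=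
  ne_top_of_le_ne_top ENNReal.one_ne_top (hc_le_one hs0 fun _ hz => ⟨hz.1.1, hz.1.2.le⟩)

lemma XX_nonneg (s x η : ℝ) (n : ℕ) : 0 ≤ XX T s x η n := ENNReal.toReal_nonneg

lemma XX_le_one {s : ℝ} (hs0 : 0 < s) (x η : ℝ) (n : ℕ) : XX T s x η n ≤ 1 := by
  have h1 : hc s (EE T x η n) ≤ 1 := hc_le_one hs0 fun _ hz => ⟨hz.1.1, hz.1.2.le⟩
  have := ENNReal.toReal_mono ENNReal.one_ne_top h1
  simpa [XX] using this

lemma XX_rec (h : IsSys T φ) {s : ℝ} (hs0 : 0 < s) (hs2 : s < 1/2) (x η : ℝ) (n b : ℕ) :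
    XX T s x η n ≤ 1 / (1 - 2*s) * (2:ℝ)^((1 - 2*s) * b) * XX T s x η (n+1) +
      (2:ℝ)^(-(s * b)) := by
  have h1 := hc_rec h hs0 x η n (2^b) Nat.one_le_two_pow
  have h0 := XX_nonneg (T := T) s x η (n+1)
  have h2 : XX T s x η n ≤ (∑ d ∈ Finset.Icc (1:ℕ) (2^b), (d:ℝ)^(-(2*s))) * XX T s x η (n+1) +
      ((2^b : ℕ) : ℝ)^(-s) := by
    have hsum0 : 0 ≤ ∑ d ∈ Finset.Icc (1:ℕ) (2^b), (d:ℝ)^(-(2*s)) :=
      Finset.sum_nonneg fun d _ => by positivity
    have h3 := ENNReal.toReal_mono (ENNReal.add_ne_top.2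
      ⟨ENNReal.mul_ne_top ENNReal.ofReal_ne_top (hc_EE_ne_top hs0 x η (n+1)),
        ENNReal.ofReal_ne_top⟩) h1
    rw [ENNReal.toReal_add (ENNReal.mul_ne_top ENNReal.ofReal_ne_top (hc_EE_ne_top hs0 x η (n+1)))
      ENNReal.ofReal_ne_top, ENNReal.toReal_mul, ENNReal.toReal_ofReal hsum0,
      ENNReal.toReal_ofReal (by positivity)] at h3
    exact h3
  refine h2.trans (add_le_add ?_ (le_of_eq ?_))
  · refine mul_le_mul_of_nonneg_right ?_ h0
    refine (sum_rpow_le hs0 hs2 _).trans (le_of_eq ?_)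
    congr 1
    push_cast
    rw [← Real.rpow_natCast, ← Real.rpow_mul (by norm_num)]
    congr 1
    ring
  · push_cast
    rw [← Real.rpow_natCast, ← Real.rpow_mul (by norm_num)]
    congr 1
    ring

lemma XX_two (h : IsSys T φ) {s : ℝ} (hs0 : 0 < s) {x η : ℝ} (hx : x ∈ Ico (0:ℝ) 1)
    (hsep : SepAt φ 2 η) {n : ℕ} (hdig : φ 2 (T^[n+1] x) = T^[n] x) :
    XX T s x η n ≤ (2:ℝ)^(-(2*s)) * XX T s x η (n+1) := by
  have h1 := EE_small h hx hsep (by norm_num : 1 ≤ 2) le_rfl hdig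
  have h2 : hc s (EE T x η n) ≤ ENNReal.ofReal (((2:ℕ):ℝ) ^ (-(2*s))) * hc s (EE T x η (n+1)) :=
    (measure_mono h1).trans (hc_phi h hs0 (by norm_num) fun z hz => ⟨hz.1.1, hz.1.2.le⟩)
  have h3 := ENNReal.toReal_mono
    (ENNReal.mul_ne_top ENNReal.ofReal_ne_top (hc_EE_ne_top hs0 x η (n+1))) h2
  rw [ENNReal.toReal_mul, ENNReal.toReal_ofReal (by positivity)] at h3
  exact_mod_cast h3

lemma dd_upper (h : IsSys T φ) {A : ℝ} (hA : 1 < A) {s : ℝ} (hs0 : 0 < s) (hs2 : s < 1/2)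
    (hs : 1 < s * (A + 1)) : dimH (AS T (val φ (dd A))) ≤ ENNReal.ofReal s := by
  obtain ⟨x, hxdef⟩ : ∃ x, x = val φ (dd A) := ⟨_, rfl⟩
  rw [← hxdef]
  have hx : Codes T φ (dd A) x := hxdef ▸ codes_val h (dd_good hA)
  obtain ⟨η, hη0, hsep0⟩ := h.sep 2
  have hsep : SepAt φ 2 η := hsep0
  -- intermediate ratio
  obtain ⟨A', hA'1, hA'A⟩ : ∃ A', 1/s - 1 < A' ∧ A' < A := by
    apply exists_between
    have : 1/s < A + 1 := by rw [div_lt_iff₀ hs0]; linarith
    linarith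
  have hsA' : 0 < s * A' - (1 - s) := by
    have : 1/s < A' + 1 := by linarith
    rw [div_lt_iff₀ hs0] at this
    linarith
  have hA'g : 1 < A' := by
    have : 2 < 1/s := by rw [lt_div_iff₀ hs0]; linarith
    linarith
  obtain ⟨c, hc⟩ : ∃ c : ℝ, c = 1 / (1 - 2*s) := ⟨_, rfl⟩
  have hc0 : 0 < c := by rw [hc]; apply div_pos one_pos; linarith
  obtain ⟨κ, hκ⟩ : ∃ κ : ℝ, (2:ℝ)^κ = 2 * c := ⟨Real.logb 2 (2*c), by
    rw [Real.rpow_logb (by norm_num) (by norm_num) (by positivity)]⟩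
  obtain ⟨X, hX⟩ : ∃ X : ℕ → ℝ, X = XX T s x η := ⟨_, rfl⟩
  have hX0 : ∀ n, 0 ≤ X n := fun n => hX ▸ XX_nonneg s x η n
  have hX1 : ∀ n, X n ≤ 1 := fun n => hX ▸ XX_le_one hs0 x η n
  -- recursion over a block
  have hblock : ∀ j b : ℕ, X (pp A j) ≤
      c * (2:ℝ)^((1 - 2*s) * b) * ((2:ℝ)^(-(2*s) * ((gg A j : ℝ) - 1)) * X (pp A (j+1))) +
        (2:ℝ)^(-(s * b)) := by
    intro j b
    have h1 : X (pp A j) ≤ c * (2:ℝ)^((1 - 2*s) * b) * X (pp A j + 1) + (2:ℝ)^(-(s * b)) := by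
      rw [hX, hc]; exact XX_rec h hs0 hs2 x η _ b
    have h2 : ∀ k : ℕ, k + 1 ≤ gg A j →
        X (pp A j + 1) ≤ (2:ℝ)^(-(2*s) * (k:ℝ)) * X (pp A j + 1 + k) := by
      intro k
      induction k with
      | zero => intro _; simp
      | succ k ih =>
        intro hk
        have ih' := ih (by omega)
        have hoff : ¬ ∃ i, pp A i = pp A j + 1 + k := by
          rintro ⟨i, hi⟩
          rcases Nat.lt_or_ge i (j+1) with hij | hij
          · have := (pp_mono hA).monotone (Nat.lt_succ_iff.1 hij); omega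
          · have h5 := (pp_mono hA).monotone hij
            rw [pp_succ] at h5
            omega
        have hd2 : dd A (pp A j + 1 + k) = 2 := dd_off hoff
        have hcod := hx.2.2 (pp A j + 1 + k)
        rw [hd2] at hcod
        have h3 : X (pp A j + 1 + k) ≤ (2:ℝ)^(-(2*s)) * X (pp A j + 1 + k + 1) := by
          rw [hX]; exact XX_two h hs0 hx.1 hsep hcod
        calc X (pp A j + 1) ≤ (2:ℝ)^(-(2*s) * (k:ℝ)) * X (pp A j + 1 + k) := ih'
          _ ≤ (2:ℝ)^(-(2*s) * (k:ℝ)) * ((2:ℝ)^(-(2*s)) * X (pp A j + 1 + k + 1)) := by gcongr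
          _ = (2:ℝ)^(-(2*s) * ((k+1:ℕ):ℝ)) * X (pp A j + 1 + (k+1)) := by
            rw [← mul_assoc, ← Real.rpow_add (by norm_num)]
            congr 2
            push_cast; ring
    have h4 := h2 (gg A j - 1) (by have := gg_pos hA j; omega)
    rw [show pp A j + 1 + (gg A j - 1) = pp A (j+1) by
      rw [pp_succ]; have := gg_pos hA j; omega] at h4
    rw [Nat.cast_sub (gg_pos hA j)] at h4
    push_cast at h4
    refine h1.trans ?_
    gcongr
  -- main estimate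
  obtain ⟨lam0, hlam0, hlam00⟩ : ∃ lam0 : ℝ, κ + 1 ≤ lam0 * (s * A' - (1 - s)) ∧ 1 ≤ lam0 := by
    refine ⟨max 1 ((κ + 1) / (s * A' - (1 - s))), ?_, le_max_left _ _⟩
    rw [← div_le_iff₀ hsA']
    exact le_max_right _ _
  have hmain : ∀ lam : ℝ, lam0 ≤ lam → ∀ j : ℕ, X (pp A j) ≤ 2 * (2:ℝ)^(-(s * eE A' lam j)) := by
    intro lam hlam
    have hlampos : 0 < lam := by linarith
    have hb1 : ∀ j, (eE A' lam j : ℝ) < lam * A'^j + 1 := fun j =>
      Nat.ceil_lt_add_one (by positivity)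
    have hb2 : ∀ j, lam * A'^j ≤ (eE A' lam j : ℝ) := fun j => Nat.le_ceil _
    -- backward step
    have hstep : ∀ j, X (pp A (j+1)) ≤ 2 * (2:ℝ)^(-(s * eE A' lam (j+1))) →
        X (pp A j) ≤ 2 * (2:ℝ)^(-(s * eE A' lam j)) := by
      intro j hj
      have h1 := hblock j (eE A' lam j)
      have h2 : (2:ℝ)^(-(2*s) * ((gg A j : ℝ) - 1)) ≤ 1 := by
        apply Real.rpow_le_one_of_one_le_of_nonpos (by norm_num)
        have : (1:ℝ) ≤ gg A j := by exact_mod_cast gg_pos hA j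
        nlinarith
      have h3 : c * (2:ℝ)^((1 - 2*s) * (eE A' lam j : ℝ)) *
          ((2:ℝ)^(-(2*s) * ((gg A j : ℝ) - 1)) * X (pp A (j+1))) ≤
          c * (2:ℝ)^((1 - 2*s) * (eE A' lam j : ℝ)) *
            (1 * (2 * (2:ℝ)^(-(s * eE A' lam (j+1))))) := by
        have := hX0 (pp A (j+1))
        gcongr
      have h4 : c * (2:ℝ)^((1 - 2*s) * (eE A' lam j : ℝ)) *
            (1 * (2 * (2:ℝ)^(-(s * eE A' lam (j+1))))) ≤ (2:ℝ)^(-(s * eE A' lam j)) := by
        have h5 : c * (2:ℝ)^((1 - 2*s) * (eE A' lam j : ℝ)) *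
            (1 * (2 * (2:ℝ)^(-(s * eE A' lam (j+1))))) =
            (2:ℝ)^(κ + (1 - 2*s) * (eE A' lam j : ℝ) + -(s * eE A' lam (j+1))) := by
          rw [Real.rpow_add (by norm_num), Real.rpow_add (by norm_num), hκ]; ring
        rw [h5]
        apply Real.rpow_le_rpow_of_exponent_le (by norm_num)
        have e1 := hb1 j
        have e2 := hb2 (j+1)
        have e3 : (1:ℝ) ≤ A'^j := one_le_pow₀ hA'g.le
        have e4 : (1 - s) * (eE A' lam j : ℝ) ≤ (1 - s) * (lam * A'^j + 1) :=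
          mul_le_mul_of_nonneg_left e1.le (by linarith)
        have e5 : s * (lam * A'^(j+1)) ≤ s * (eE A' lam (j+1) : ℝ) :=
          mul_le_mul_of_nonneg_left e2 hs0.le
        have e6 : lam0 * (s * A' - (1 - s)) ≤ lam * A'^j * (s * A' - (1 - s)) := by
          apply mul_le_mul_of_nonneg_right _ hsA'.le
          nlinarith
        have e7 : lam * A'^j * (s * A' - (1 - s)) =
            s * (lam * A'^(j+1)) - (1 - s) * (lam * A'^j) := by rw [pow_succ]; ring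
        nlinarith
      linarith
    -- far away
    have hfar : ∀ᶠ J : ℕ in atTop, X (pp A J) ≤ 2 * (2:ℝ)^(-(s * eE A' lam J)) := by
      have hr : 0 ≤ A'/A := by positivity
      have hr1 : A'/A < 1 := by rw [div_lt_one (by linarith)]; exact hA'A
      have t1 : Tendsto (fun J : ℕ => (|κ| + 3 + lam) * (1/A)^J + lam * (A'/A)^J) atTop (𝓝 0) := by
        have a1 := (tendsto_pow_atTop_nhds_zero_of_lt_one (r := 1/A) (by positivity)
          (by rw [div_lt_one (by linarith)]; exact hA)).const_mul (|κ| + 3 + lam)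
        have a2 := (tendsto_pow_atTop_nhds_zero_of_lt_one hr hr1).const_mul lam
        simpa using a1.add a2
      filter_upwards [t1.eventually (gt_mem_nhds (by positivity : (0:ℝ) < 2*s))] with J hJ
      have h1 := hblock J (eE A' lam J)
      have h3 : c * (2:ℝ)^((1 - 2*s) * (eE A' lam J : ℝ)) *
          ((2:ℝ)^(-(2*s) * ((gg A J : ℝ) - 1)) * X (pp A (J+1))) ≤
          (2 * c) * (2:ℝ)^((1 - 2*s) * (eE A' lam J : ℝ)) *
            ((2:ℝ)^(-(2*s) * ((gg A J : ℝ) - 1)) * 1) := by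
        have := hX0 (pp A (J+1))
        have := hX1 (pp A (J+1))
        gcongr
        linarith
      have h4 : (2 * c) * (2:ℝ)^((1 - 2*s) * (eE A' lam J : ℝ)) *
            ((2:ℝ)^(-(2*s) * ((gg A J : ℝ) - 1)) * 1) ≤ (2:ℝ)^(-(s * eE A' lam J)) := by
        have h5 : (2 * c) * (2:ℝ)^((1 - 2*s) * (eE A' lam J : ℝ)) *
            ((2:ℝ)^(-(2*s) * ((gg A J : ℝ) - 1)) * 1) =
            (2:ℝ)^(κ + (1 - 2*s) * (eE A' lam J : ℝ) + -(2*s) * ((gg A J : ℝ) - 1)) := by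
          rw [Real.rpow_add (by norm_num), Real.rpow_add (by norm_num), hκ]; ring
        rw [h5]
        apply Real.rpow_le_rpow_of_exponent_le (by norm_num)
        have hAJ : (0:ℝ) < A^J := by positivity
        have e1 := hb1 J
        have e2 : A^J ≤ (gg A J : ℝ) := Nat.le_ceil _
        have e3 : (1/A)^J * A^J = 1 := by rw [← mul_pow]; simp [(by linarith : A ≠ 0)]
        have e4 : (A'/A)^J * A^J = A'^J := by
          rw [← mul_pow, div_mul_cancel₀ _ (by linarith : A ≠ 0)]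
        have e5 : (|κ| + 3 + lam) + lam * A'^J ≤ 2 * s * A^J := by
          have := mul_le_mul_of_nonneg_right hJ.le hAJ.le
          calc (|κ| + 3 + lam) + lam * A'^J =
                (|κ| + 3 + lam) * ((1/A)^J * A^J) + lam * ((A'/A)^J * A^J) := by rw [e3, e4]; ring
            _ = ((|κ| + 3 + lam) * (1/A)^J + lam * (A'/A)^J) * A^J := by ring
            _ ≤ 2 * s * A^J := this
        have e6 : 2 * s * A^J ≤ 2 * s * (gg A J : ℝ) := by gcongr
        have e7 : (1 - s) * (eE A' lam J : ℝ) ≤ lam * A'^J + 1 := by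
          have : (0:ℝ) ≤ (eE A' lam J : ℝ) := by positivity
          nlinarith
        have e8 := le_abs_self κ
        nlinarith
      linarith
    obtain ⟨J0, hJ0⟩ := eventually_atTop.1 hfar
    have hback : ∀ k j : ℕ, J0 ≤ j + k → X (pp A j) ≤ 2 * (2:ℝ)^(-(s * eE A' lam j)) := by
      intro k
      induction k with
      | zero => intro j hj; exact hJ0 j (by omega)
      | succ k ih => intro j hj; exact hstep j (ih (j+1) (by omega))
    intro j
    exact hback J0 j (by omega)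
  -- let lam → ∞
  have hzero : ∀ j, X (pp A j) = 0 := by
    intro j
    refine le_antisymm ?_ (hX0 _)
    have t1 : Tendsto (fun lam : ℝ => 2 * (2:ℝ)^(-(s * lam))) atTop (𝓝 0) := by
      have a1 : Tendsto (fun lam : ℝ => -(s * lam)) atTop atBot :=
        tendsto_neg_atTop_atBot.comp (tendsto_id.const_mul_atTop hs0)
      have a2 := (tendsto_rpow_atBot_of_base_gt_one 2 (by norm_num)).comp a1
      simpa using a2.const_mul 2
    refine ge_of_tendsto t1 ?_
    filter_upwards [eventually_ge_atTop lam0] with lam hlam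
    refine (hmain lam hlam j).trans ?_
    have e1 : lam ≤ eE A' lam j := by
      have e2 : lam * A'^j ≤ (eE A' lam j : ℝ) := Nat.le_ceil _
      have e3 : (1:ℝ) ≤ A'^j := one_le_pow₀ hA'g.le
      nlinarith
    gcongr
    · norm_num
  refine dimH_le_of_hc hs0 (hc_AS h hs0 hη0 (x := x) fun N => ⟨pp A N, (pp_mono hA).id_le N, ?_⟩)
  have h1 := hzero N
  rw [hX, XX, ENNReal.toReal_eq_zero_iff] at h1
  exact h1.resolve_right (hc_EE_ne_top hs0 x η _)

end Pool.Agent.R288.AS
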