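import Pool.Agent.R288.AS.Code

/-! Lower bound for the dimension of asymptotic sets. -/

namespace Pool.Agent.R288.AS
open Set MeasureTheory Filter Topology Metric
open scoped ENNReal NNReal

variable {T : ℝ → ℝ} {φ : ℕ → ℝ → ℝ}

/-- Partial sums. -/
def ES (e : ℕ → ℕ) (i : ℕ) : ℕ := ∑ l ∈ Finset.range i, e l

/-- Integer parts of the parameter in the mixed radix system. -/
noncomputable def NN (e : ℕ → ℕ) (t : ℝ) (i : ℕ) : ℕ := ⌊(2:ℝ)^(ES e i) * t⌋₊

/-- Mixed radix digits. -/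
noncomputable def kk (e : ℕ → ℕ) (t : ℝ) (i : ℕ) : ℕ := NN e t (i+1) % 2^(e i)

/-- New digits. -/
noncomputable def cc (e : ℕ → ℕ) (t : ℝ) (i : ℕ) : ℕ := 2 * (2^(e i) + kk e t i)

/-- Modified digit sequence. -/
noncomputable def bb (p e a : ℕ → ℕ) (t : ℝ) : ℕ → ℕ := Function.extend p (cc e t) a

lemma ES_succ (e : ℕ → ℕ) (i : ℕ) : ES e (i+1) = ES e i + e i := Finset.sum_range_succ _ _

lemma NN_zero (e : ℕ → ℕ) {t : ℝ} (ht : t ∈ Ico (0:ℝ) 1) : NN e t 0 = 0 := by
  simp only [NN, ES, Finset.range_zero, Finset.sum_empty, pow_zero, one_mul]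
  exact Nat.floor_eq_zero.2 ht.2

lemma NN_succ (e : ℕ → ℕ) (t : ℝ) (i : ℕ) :
    NN e t (i+1) = 2^(e i) * NN e t i + kk e t i := by
  have h1 : NN e t (i+1) / 2^(e i) = NN e t i := by
    have := Nat.floor_div_natCast ((2:ℝ)^(ES e (i+1)) * t) (2^(e i))
    simp only [NN]
    rw [← this]
    congr 1
    rw [ES_succ, pow_add]
    push_cast
    field_simp
  rw [kk, ← h1]
  exact (Nat.div_add_mod _ _).symm

lemma kk_lt (e : ℕ → ℕ) (t : ℝ) (i : ℕ) : kk e t i < 2^(e i) := Nat.mod_lt _ (by positivity)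

lemma cc_le (e : ℕ → ℕ) (t : ℝ) (i : ℕ) : cc e t i + 1 ≤ 2^(e i + 2) := by
  have h1 := kk_lt e t i
  rw [cc, pow_add]
  omega

lemma cc_ge (e : ℕ → ℕ) (t : ℝ) (i : ℕ) : 2^(e i) ≤ cc e t i := by
  rw [cc]; omega

lemma cc_two (e : ℕ → ℕ) (t : ℝ) (i : ℕ) : 2 ≤ cc e t i := by
  have h1 : 1 ≤ 2^(e i) := Nat.one_le_two_pow
  rw [cc]; omega

lemma bb_at {p : ℕ → ℕ} (hp : StrictMono p) (e a : ℕ → ℕ) (t : ℝ) (i : ℕ) :
    bb p e a t (p i) = cc e t i := hp.injective.extend_apply _ _ _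

lemma bb_off {p : ℕ → ℕ} (e a : ℕ → ℕ) (t : ℝ) {n : ℕ} (hn : ¬ ∃ i, p i = n) :
    bb p e a t n = a n := Function.extend_apply' _ _ _ hn

lemma bb_good {p : ℕ → ℕ} (hp : StrictMono p) (e : ℕ → ℕ) {a : ℕ → ℕ} (ha : ∀ n, 1 ≤ a n)
    (t : ℝ) : Good (bb p e a t) := by
  constructor
  · intro n
    by_cases hn : ∃ i, p i = n
    · obtain ⟨i, rfl⟩ := hn
      rw [bb_at hp]
      exact le_trans (by norm_num) (cc_two e t i)
    · rw [bb_off e a t hn]; exact ha n
  · intro N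
    refine ⟨p N, hp.id_le N, ?_⟩
    rw [bb_at hp]; exact cc_two e t N

/-- The modified point is asymptotic to `x`. -/
lemma bb_mem_AS (h : IsSys T φ) {x : ℝ} {a : ℕ → ℕ} (hx : Codes T φ a x) {p : ℕ → ℕ}
    (hp : StrictMono p) (hap : Tendsto (fun i => a (p i)) atTop atTop) {e : ℕ → ℕ}
    (he : Tendsto e atTop atTop) (t : ℝ) : val φ (bb p e a t) ∈ AS T x := by
  set b := bb p e a t with hb
  have hg : Good b := bb_good hp e hx.2.1 t
  set y := val φ b with hy
  have hyc : Codes T φ b y := codes_val h hg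
  refine ⟨val_Ico h hg, ?_⟩
  have hg0 : Tendsto (fun i => 1 / (a (p i) : ℝ) + 1 / (e i : ℝ)) atTop (𝓝 0) := by
    have h1 : Tendsto (fun i => 1 / (a (p i) : ℝ)) atTop (𝓝 0) :=
      tendsto_one_div_atTop_nhds_zero_nat.comp hap
    have h2 : Tendsto (fun i => 1 / (e i : ℝ)) atTop (𝓝 0) :=
      tendsto_one_div_atTop_nhds_zero_nat.comp he
    simpa using h1.add h2
  rw [Metric.tendsto_atTop]
  intro ε hε
  have hev := (hg0.eventually (gt_mem_nhds hε)).and (he.eventually_ge_atTop 1)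
  obtain ⟨I, hI⟩ := eventually_atTop.1 hev
  refine ⟨p I, fun n hn => ?_⟩
  rw [Real.dist_eq, sub_zero, abs_abs]
  -- least i with n ≤ p i
  have hex : ∃ i, n ≤ p i := ⟨n, hp.id_le n⟩
  set i := Nat.find hex with hi
  have hni : n ≤ p i := Nat.find_spec hex
  have hmin : ∀ l, l < i → p l < n := fun l hl => by
    have := Nat.find_min hex hl; omega
  have hIi : I ≤ i := by
    by_contra hlt
    push Not at hlt
    have := hp hlt
    omega
  have hagree : ∀ j < p i - n, sh n a j = sh n b j := by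
    intro j hj
    simp only [sh, hb]
    rw [bb_off]
    rintro ⟨l, hl⟩
    rcases lt_or_ge l i with hli | hli
    · have := hmin l hli; omega
    · have := hp.monotone hli; omega
  have e1 := hx.pre n (p i - n)
  have e2 := hyc.pre n (p i - n)
  rw [show n + (p i - n) = p i by omega] at e1 e2
  rw [e1, e2, ← pre_congr _ _ _ hagree]
  have m1 : T^[p i] x ∈ Icc (0:ℝ) 1 := ⟨(h.iter hx.1 _).1, (h.iter hx.1 _).2.le⟩
  have m2 : T^[p i] y ∈ Icc (0:ℝ) 1 := ⟨(h.iter hyc.1 _).1, (h.iter hyc.1 _).2.le⟩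
  refine lt_of_le_of_lt (pre_lip h _ _ (fun n => hx.2.1 _) _ m1 _ m2) ?_
  have b1 : T^[p i] x ≤ 1 / (a (p i) : ℝ) := by
    have m1' : T^[p i + 1] x ∈ Icc (0:ℝ) 1 := ⟨(h.iter hx.1 _).1, (h.iter hx.1 _).2.le⟩
    have := h.hi _ (hx.2.1 (p i)) _ m1'
    rwa [hx.2.2] at this
  have b2 : T^[p i] y ≤ 1 / (e i : ℝ) := by
    have m1' : T^[p i + 1] y ∈ Icc (0:ℝ) 1 := ⟨(h.iter hyc.1 _).1, (h.iter hyc.1 _).2.le⟩
    have := h.hi _ (hyc.2.1 (p i)) _ m1'
    rw [hyc.2.2] at this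
    refine this.trans ?_
    have he1 : 1 ≤ e i := (hI i hIi).2
    apply one_div_le_one_div_of_le (by exact_mod_cast he1)
    rw [hb, bb_at hp]
    have h3 : e i < 2^(e i) := Nat.lt_two_pow_self
    have := cc_ge e t i
    exact_mod_cast (h3.le.trans this)
  have hfin := (hI i hIi).1
  have hpos2 : (0:ℝ) ≤ 1 / (a (p i) : ℝ) := by positivity
  have hpos1 : (0:ℝ) ≤ 1 / (e i : ℝ) := by positivity
  rw [abs_lt]
  constructor
  · have := m1.1; linarith
  · have := m2.1; linarith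

/-- Product bound for the modified digits. -/
lemma bb_prod {a p e : ℕ → ℕ} (hp : StrictMono p) (ha : ∀ n, 1 ≤ a n) (t : ℝ) {i w : ℕ}
    (hw : ∏ n ∈ Finset.range (p i), ((a n : ℝ) + 1)^2 ≤ 2^w) :
    ∏ n ∈ Finset.range (p i), ((bb p e a t n : ℝ) + 1)^2 ≤ 2^(w + 2 * ES e i + 4 * i) := by
  set g : ℕ → ℝ := Function.extend p (fun l => (2:ℝ)^(2 * e l + 4)) (fun _ => 1) with hg
  have hgat : ∀ l, g (p l) = (2:ℝ)^(2 * e l + 4) := fun l => hp.injective.extend_apply _ _ _
  have hgoff : ∀ n, (¬ ∃ l, p l = n) → g n = 1 := fun n hn => Function.extend_apply' _ _ _ hn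
  have h1 : ∏ n ∈ Finset.range (p i), ((bb p e a t n : ℝ) + 1)^2
      ≤ ∏ n ∈ Finset.range (p i), (((a n : ℝ) + 1)^2 * g n) := by
    refine Finset.prod_le_prod (fun n _ => by positivity) fun n _ => ?_
    by_cases hn : ∃ l, p l = n
    · obtain ⟨l, rfl⟩ := hn
      rw [bb_at hp, hgat]
      have h2 : (cc e t l : ℝ) + 1 ≤ 2^(e l + 2) := by exact_mod_cast cc_le e t l
      have h3 : ((cc e t l : ℝ) + 1)^2 ≤ (2:ℝ)^(2 * e l + 4) := by
        rw [show 2 * e l + 4 = (e l + 2) * 2 by ring, pow_mul]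
        gcongr
      have h4 : (1:ℝ) ≤ ((a (p l) : ℝ) + 1)^2 := by
        have h5 : (1:ℝ) ≤ a (p l) := by exact_mod_cast ha _
        nlinarith
      have h6 : (0:ℝ) ≤ (2:ℝ)^(2 * e l + 4) := by positivity
      nlinarith
    · rw [bb_off e a t hn, hgoff n hn, mul_one]
  refine h1.trans ?_
  rw [Finset.prod_mul_distrib]
  have h2 : ∏ n ∈ Finset.range (p i), g n = (2:ℝ)^(2 * ES e i + 4 * i) := by
    have h3 : ∏ n ∈ Finset.range (p i), g n = ∏ n ∈ (Finset.range i).image p, g n := by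
      symm
      refine Finset.prod_subset ?_ ?_
      · intro n hn
        obtain ⟨l, hl, rfl⟩ := Finset.mem_image.1 hn
        exact Finset.mem_range.2 (hp (Finset.mem_range.1 hl))
      · intro n hn hn'
        apply hgoff
        rintro ⟨l, rfl⟩
        apply hn'
        refine Finset.mem_image_of_mem p (Finset.mem_range.2 ?_)
        exact hp.lt_iff_lt.1 (Finset.mem_range.1 hn)
    rw [h3, Finset.prod_image (fun _ _ _ _ hh => hp.injective hh)]
    simp only [hgat]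
    rw [Finset.prod_pow_eq_pow_sum]
    congr 1
    rw [Finset.sum_add_distrib, ← Finset.mul_sum, ES]
    simp [mul_comm]
  rw [h2, show w + 2 * ES e i + 4 * i = w + (2 * ES e i + 4 * i) by ring, pow_add 2 w]
  gcongr

/-- The key separation estimate. -/
lemma sep_aux (h : IsSys T φ) {x : ℝ} {a : ℕ → ℕ} (hx : Codes T φ a x) {p : ℕ → ℕ}
    (hp : StrictMono p) {e : ℕ → ℕ} {w : ℕ → ℕ}
    (hw : ∀ i, ∏ n ∈ Finset.range (p i), ((a n : ℝ) + 1)^2 ≤ 2^(w i))
    {t t' : ℝ} (ht : t ∈ Ico (0:ℝ) 1) (ht' : t' ∈ Ico (0:ℝ) 1) {i : ℕ}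
    (hmin : ∀ l ≤ i, NN e t l = NN e t' l) (hlt : kk e t i < kk e t' i) :
    ∃ Δ : ℕ, 1 ≤ Δ ∧ Δ < 2^(e i) ∧ |t - t'| ≤ 2 * Δ / 2^(ES e (i+1)) ∧
      (Δ : ℝ) / 2^(w i + 2 * ES e i + 4 * i + 2 * e i + 4) ≤
        |val φ (bb p e a t) - val φ (bb p e a t')| := by
  refine ⟨kk e t' i - kk e t i, by omega, ?_, ?_, ?_⟩
  · have := kk_lt e t' i; omega
  · -- parameter distance
    have hN : NN e t' (i+1) = NN e t (i+1) + (kk e t' i - kk e t i) := by
      rw [NN_succ, NN_succ, hmin i le_rfl]; omega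
    have h2 : (0:ℝ) < 2^(ES e (i+1)) := by positivity
    have f1 : (NN e t (i+1) : ℝ) ≤ 2^(ES e (i+1)) * t := Nat.floor_le (by have := ht.1; positivity)
    have f2 : 2^(ES e (i+1)) * t < (NN e t (i+1) : ℝ) + 1 := Nat.lt_floor_add_one _
    have f3 : (NN e t' (i+1) : ℝ) ≤ 2^(ES e (i+1)) * t' :=
      Nat.floor_le (by have := ht'.1; positivity)
    have f4 : 2^(ES e (i+1)) * t' < (NN e t' (i+1) : ℝ) + 1 := Nat.lt_floor_add_one _
    set D := kk e t' i - kk e t i with hD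
    have hD1 : (1:ℝ) ≤ D := by
      have : 1 ≤ D := by omega
      exact_mod_cast this
    have hN' : (NN e t' (i+1) : ℝ) = NN e t (i+1) + D := by exact_mod_cast hN
    rw [le_div_iff₀ h2, ← abs_of_pos h2, ← abs_mul, abs_le]
    constructor <;> nlinarith
  · set D := kk e t' i - kk e t i with hD
    have hD1 : (1:ℝ) ≤ D := by
      have : 1 ≤ D := by omega
      exact_mod_cast this
    set b := bb p e a t with hb
    set b' := bb p e a t' with hb'
    have hg : Good b := bb_good hp e hx.2.1 t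
    have hg' : Good b' := bb_good hp e hx.2.1 t'
    have hagree : ∀ n < p i, b' n = b n := by
      intro n hn
      by_cases hn' : ∃ l, p l = n
      · obtain ⟨l, rfl⟩ := hn'
        rw [hb, hb', bb_at hp, bb_at hp]
        have hl : l < i := hp.lt_iff_lt.1 hn
        have e1 := hmin l hl.le
        have e2 := hmin (l+1) hl
        rw [NN_succ, NN_succ, e1] at e2
        simp only [cc]
        omega
      · rw [hb, hb', bb_off e a t hn', bb_off e a t' hn']
    rw [val_pre h (p i) hg.1, val_pre h (p i) hg'.1, pre_congr _ b' b hagree]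
    set u := val φ (sh (p i) b) with hu
    set u' := val φ (sh (p i) b') with hu'
    have mu : u ∈ Icc (0:ℝ) 1 := val_mem h (hg.sh _).1
    have mu' : u' ∈ Icc (0:ℝ) 1 := val_mem h (hg'.sh _).1
    refine le_trans ?_ (pre_alip h (p i) b hg.1 u mu u' mu')
    have lo : 1 / ((cc e t i : ℝ) + 1) ≤ u := by
      have := val_lo h (hg.sh (p i)).1
      simpa [sh, hb, bb_at hp] using this
    have hi : u' ≤ 1 / (cc e t' i : ℝ) := by
      have := val_hi h (hg'.sh (p i)).1
      simpa [sh, hb', bb_at hp] using this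
    have hc' : cc e t' i = cc e t i + 2 * D := by simp only [cc]; omega
    have hc'r : (cc e t' i : ℝ) = cc e t i + 2 * D := by exact_mod_cast hc'
    have c1 : (cc e t i : ℝ) + 1 ≤ 2^(e i + 2) := by exact_mod_cast cc_le e t i
    have c2 : (cc e t' i : ℝ) + 1 ≤ 2^(e i + 2) := by exact_mod_cast cc_le e t' i
    have c0 : (0:ℝ) ≤ cc e t i := by positivity
    have c0' : (0:ℝ) < cc e t' i := by
      rw [hc'r]; linarith
    have hdiff : (D:ℝ) / 2^(2 * e i + 4) ≤ |u - u'| := by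
      have h5 : 1 / ((cc e t i : ℝ) + 1) - 1 / (cc e t' i : ℝ) =
          (2 * D - 1) / (((cc e t i : ℝ) + 1) * cc e t' i) := by
        rw [div_sub_div _ _ (by positivity) c0'.ne', hc'r]
        congr 1
        ring
      have h6 : ((cc e t i : ℝ) + 1) * cc e t' i ≤ 2^(2 * e i + 4) := by
        rw [show 2 * e i + 4 = (e i + 2) + (e i + 2) by ring, pow_add 2 (e i + 2)]
        have h7 : (cc e t' i : ℝ) ≤ 2^(e i + 2) := by linarith
        exact mul_le_mul c1 h7 c0'.le (by positivity)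
      have h8 : (D:ℝ) / 2^(2 * e i + 4) ≤ (2 * D - 1) / (((cc e t i : ℝ) + 1) * cc e t' i) := by
        apply div_le_div₀ (by linarith) (by linarith) (by positivity) h6
      calc _ ≤ _ := h8
        _ = _ := h5.symm
        _ ≤ u - u' := by linarith
        _ ≤ |u - u'| := le_abs_self _
    have hprod := bb_prod (e := e) hp hx.2.1 t (hw i)
    have hprodpos : (0:ℝ) < ∏ n ∈ Finset.range (p i), ((b n : ℝ) + 1)^2 := by positivity
    calc (D : ℝ) / 2^(w i + 2 * ES e i + 4 * i + 2 * e i + 4)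
        = ((D:ℝ) / 2^(2 * e i + 4)) / 2^(w i + 2 * ES e i + 4 * i) := by
          rw [div_div, ← pow_add]; congr 2; ring
      _ ≤ |u - u'| / ∏ n ∈ Finset.range (p i), ((b n : ℝ) + 1)^2 := by
          apply div_le_div₀ (abs_nonneg _) hdiff hprodpos hprod

/-- Lower bound for `dim AS(x)`. -/
theorem le_dimH_AS (h : IsSys T φ) {x : ℝ} {a : ℕ → ℕ} (hx : Codes T φ a x) {p : ℕ → ℕ}
    (hp : StrictMono p) (hap : Tendsto (fun i => a (p i)) atTop atTop) {e : ℕ → ℕ}
    (he : Tendsto e atTop atTop) (he1 : ∀ i, 1 ≤ e i) {w : ℕ → ℕ}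
    (hw : ∀ i, ∏ n ∈ Finset.range (p i), ((a n : ℝ) + 1)^2 ≤ 2^(w i))
    {s C : ℝ} (hs : 0 < s) (hs1 : s ≤ 1)
    (hC : ∀ i, s * e i + s * (w i + 4 * i + 4) ≤ (1 - 2*s) * ES e i + C) :
    ENNReal.ofReal s ≤ dimH (AS T x) := by
  set Y : ℝ → ℝ := fun t => val φ (bb p e a t) with hY
  -- inverse Hölder estimate
  have key : ∀ t ∈ Ico (0:ℝ) 1, ∀ t' ∈ Ico (0:ℝ) 1,
      |t - t'| ≤ (2:ℝ)^(1 + C) * |Y t - Y t'| ^ s := by
    -- symmetric reduction
    have main : ∀ t ∈ Ico (0:ℝ) 1, ∀ t' ∈ Ico (0:ℝ) 1, ∀ i, (∀ l ≤ i, NN e t l = NN e t' l) →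
        kk e t i < kk e t' i → |t - t'| ≤ (2:ℝ)^(1 + C) * |Y t - Y t'| ^ s := by
      intro t ht t' ht' i hmin hlt
      obtain ⟨D, hD1, hD2, hd1, hd2⟩ := sep_aux h hx hp (e := e) hw ht ht' hmin hlt
      set V : ℕ := w i + 2 * ES e i + 4 * i + 2 * e i + 4 with hV
      have hDr : (1:ℝ) ≤ D := by exact_mod_cast hD1
      have hD0 : (0:ℝ) < D := by linarith
      have hDr2 : (D:ℝ) ≤ (2:ℝ)^((e i:ℕ):ℝ) := by
        rw [Real.rpow_natCast]
        exact_mod_cast hD2.le
      have h1 : ((D:ℝ) / 2^V) ^ s ≤ |Y t - Y t'| ^ s :=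
        Real.rpow_le_rpow (by positivity) hd2 hs.le
      have h2 : ((D:ℝ) / 2^V) ^ s = (D:ℝ)^s * (2:ℝ)^(-(V:ℝ) * s) := by
        rw [Real.div_rpow hD0.le (by positivity), ← Real.rpow_natCast, ← Real.rpow_mul (by norm_num),
          div_eq_mul_inv, ← Real.rpow_neg (by norm_num)]
        congr 2
        ring
      have h3 : (D:ℝ) ≤ (D:ℝ)^s * (2:ℝ)^((e i:ℝ) * (1 - s)) := by
        calc (D:ℝ) = (D:ℝ)^s * (D:ℝ)^(1 - s) := by
              rw [← Real.rpow_add hD0]; simp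
          _ ≤ (D:ℝ)^s * ((2:ℝ)^((e i:ℕ):ℝ))^(1 - s) := by
              gcongr
          _ = _ := by rw [← Real.rpow_mul (by norm_num)]
      calc |t - t'| ≤ 2 * D / 2^(ES e (i+1)) := hd1
        _ = (D:ℝ) * (2:ℝ)^(1 - (ES e i:ℝ) - e i) := by
            rw [ES_succ, ← Real.rpow_natCast 2 (ES e i + e i), Real.rpow_sub (by norm_num),
              Real.rpow_sub (by norm_num), Real.rpow_one]
            push_cast
            rw [Real.rpow_add (by norm_num)]
            field_simp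
        _ ≤ ((D:ℝ)^s * (2:ℝ)^((e i:ℝ) * (1 - s))) * (2:ℝ)^(1 - (ES e i:ℝ) - e i) := by
            gcongr
        _ = ((D:ℝ)^s * (2:ℝ)^(-(V:ℝ) * s)) *
              (2:ℝ)^(1 + (s * e i + s * (w i + 4 * i + 4) - (1 - 2*s) * ES e i)) := by
            rw [mul_assoc, mul_assoc, ← Real.rpow_add (by norm_num), ← Real.rpow_add (by norm_num)]
            congr 2
            rw [hV]
            push_cast
            ring
        _ ≤ ((D:ℝ)^s * (2:ℝ)^(-(V:ℝ) * s)) * (2:ℝ)^(1 + C) := by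
            gcongr
            · norm_num
            · have := hC i; linarith
        _ = (2:ℝ)^(1 + C) * ((D:ℝ) / 2^V) ^ s := by rw [h2]; ring
        _ ≤ _ := by gcongr
    intro t ht t' ht'
    by_cases htt : t = t'
    · subst htt
      simp only [sub_self, abs_zero]
      rw [Real.zero_rpow hs.ne', mul_zero]
    · -- find the first difference
      have hne : 0 < |t - t'| := abs_pos.2 (sub_ne_zero.2 htt)
      have hex : ∃ i, NN e t (i+1) ≠ NN e t' (i+1) := by
        obtain ⟨n, hn⟩ := pow_unbounded_of_one_lt (1 / |t - t'|) (by norm_num : (1:ℝ) < 2)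
        refine ⟨n, fun heq => ?_⟩
        have hES : n ≤ ES e (n+1) := by
          have : ∀ m, m ≤ ES e m := by
            intro m
            induction m with
            | zero => simp
            | succ m ih => rw [ES_succ]; have := he1 m; omega
          exact (Nat.le_succ n).trans (this (n+1))
        have f1 : (NN e t (n+1) : ℝ) ≤ 2^(ES e (n+1)) * t :=
          Nat.floor_le (by have := ht.1; positivity)
        have f2 : 2^(ES e (n+1)) * t < (NN e t (n+1) : ℝ) + 1 := Nat.lt_floor_add_one _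
        have f3 : (NN e t' (n+1) : ℝ) ≤ 2^(ES e (n+1)) * t' :=
          Nat.floor_le (by have := ht'.1; positivity)
        have f4 : 2^(ES e (n+1)) * t' < (NN e t' (n+1) : ℝ) + 1 := Nat.lt_floor_add_one _
        rw [heq] at f1 f2
        have h5 : |(2:ℝ)^(ES e (n+1)) * (t - t')| < 1 := by
          rw [abs_lt]; constructor <;> nlinarith
        rw [abs_mul, abs_of_pos (by positivity)] at h5
        have h6 : (2:ℝ)^n ≤ 2^(ES e (n+1)) := pow_le_pow_right₀ (by norm_num) hES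
        rw [div_lt_iff₀ hne] at hn
        nlinarith
      set i := Nat.find hex with hi
      have hsp : NN e t (i+1) ≠ NN e t' (i+1) := Nat.find_spec hex
      have hmn : ∀ l, l < i → NN e t (l+1) = NN e t' (l+1) := fun l hl => by
        have := Nat.find_min hex hl
        simpa using this
      have hmin : ∀ l ≤ i, NN e t l = NN e t' l := by
        intro l hl
        cases l with
        | zero => rw [NN_zero e ht, NN_zero e ht']
        | succ l => exact hmn l (by omega)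
      have hkne : kk e t i ≠ kk e t' i := by
        intro heq
        apply hsp
        rw [NN_succ, NN_succ, hmin i le_rfl, heq]
      rcases lt_or_gt_of_ne hkne with hlt | hgt
      · exact main t ht t' ht' i hmin hlt
      · have := main t' ht' t ht i (fun l hl => (hmin l hl).symm) hgt
        rwa [abs_sub_comm t' t, abs_sub_comm (Y t') (Y t)] at this
  -- conclude
  have hinj : InjOn Y (Ico (0:ℝ) 1) := by
    intro t ht t' ht' heq
    have := key t ht t' ht'
    rw [heq, sub_self, abs_zero, Real.zero_rpow hs.ne', mul_zero] at this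
    exact sub_eq_zero.1 (abs_eq_zero.1 (le_antisymm this (abs_nonneg _)))
  set g := Function.invFunOn Y (Ico (0:ℝ) 1) with hgdef
  have hleft : ∀ t ∈ Ico (0:ℝ) 1, g (Y t) = t := fun t ht => hinj.leftInvOn_invFunOn ht
  have hCpos : (0:ℝ) < (2:ℝ)^(1 + C) := by positivity
  have hH : HolderOnWith (Real.toNNReal ((2:ℝ)^(1 + C))) (Real.toNNReal s) g (Y '' Ico (0:ℝ) 1) := by
    rintro _ ⟨t, ht, rfl⟩ _ ⟨t', ht', rfl⟩
    rw [hleft t ht, hleft t' ht', edist_dist, edist_dist, Real.dist_eq, Real.dist_eq,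
      Real.coe_toNNReal _ hs.le]
    rw [ENNReal.ofReal_rpow_of_nonneg (abs_nonneg _) hs.le]
    change ENNReal.ofReal |t - t'| ≤ ENNReal.ofReal ((2:ℝ)^(1+C)) * _
    rw [← ENNReal.ofReal_mul hCpos.le]
    exact ENNReal.ofReal_le_ofReal (key t ht t' ht')
  have hd := hH.dimH_image_le (Real.toNNReal_pos.2 hs)
  have himg : g '' (Y '' Ico (0:ℝ) 1) = Ico (0:ℝ) 1 := by
    rw [← image_comp]
    ext t
    constructor
    · rintro ⟨t', ht', rfl⟩
      simp only [Function.comp]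
      rw [hleft t' ht']; exact ht'
    · intro ht
      exact ⟨t, ht, hleft t ht⟩
  have hdim1 : dimH (Ico (0:ℝ) 1) = 1 := by
    rw [Real.dimH_of_nonempty_interior (by simp : (interior (Ico (0:ℝ) 1)).Nonempty)]
    simp
  rw [himg, hdim1] at hd
  have hsub : Y '' Ico (0:ℝ) 1 ⊆ AS T x := by
    rintro _ ⟨t, _, rfl⟩
    exact bb_mem_AS h hx hp hap he t
  have h9 : ENNReal.ofReal s ≤ dimH (Y '' Ico (0:ℝ) 1) := by
    have hs0 : (ENNReal.ofReal s) ≠ 0 := (ENNReal.ofReal_pos.2 hs).ne'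
    change 1 ≤ dimH (Y '' Ico (0:ℝ) 1) / ENNReal.ofReal s at hd
    rw [ENNReal.le_div_iff_mul_le (Or.inl hs0) (Or.inl ENNReal.ofReal_ne_top), one_mul] at hd
    exact hd
  exact h9.trans (dimH_mono hsub)

end Pool.Agent.R288.AS
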