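import Pool.Agent.R288.AS.Dens

/-! The Lüroth map. -/

namespace Pool.Agent.R288.AS
open Set MeasureTheory Filter Topology Metric
open scoped ENNReal NNReal

/-- `L` is a Lüroth map (the value at `1` is arbitrary). -/
def IsLuroth (L : ℝ → ℝ) : Prop :=
  L 0 = 0 ∧ ∀ n : ℕ, 1 ≤ n → ∀ x ∈ Ico (1 / ((n:ℝ) + 1)) (1 / (n:ℝ)), L x = n * (n + 1) * x - n

/-- Inverse branches of the Lüroth map. -/
noncomputable def lphi (n : ℕ) (u : ℝ) : ℝ := (u + n) / (n * (n + 1))

lemma lphi_sub {n : ℕ} (hn : 1 ≤ n) (u v : ℝ) :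
    |lphi n u - lphi n v| = |u - v| / ((n:ℝ) * (n + 1)) := by
  have hn' : (1:ℝ) ≤ n := by exact_mod_cast hn
  rw [lphi, lphi, ← sub_div, abs_div, abs_of_pos (by positivity : (0:ℝ) < n * (n+1))]
  congr 2
  ring

lemma lphi_Ico {n : ℕ} (hn : 1 ≤ n) {u : ℝ} (hu : u ∈ Ico (0:ℝ) 1) :
    lphi n u ∈ Ico (1 / ((n:ℝ) + 1)) (1 / (n:ℝ)) := by
  have hn' : (1:ℝ) ≤ n := by exact_mod_cast hn
  have h0 : (0:ℝ) < n := by linarith
  constructor
  · rw [lphi, div_le_div_iff₀ (by positivity) (by positivity)]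
    have := hu.1
    nlinarith [mul_nonneg hu.1 (by linarith : (0:ℝ) ≤ n + 1)]
  · rw [lphi, div_lt_div_iff₀ (by positivity) (by positivity)]
    have := hu.2
    nlinarith

lemma lphi_diff {n m : ℕ} (hn : 1 ≤ n) (hnm : n < m) {u v : ℝ} (hu : u ∈ Ico (0:ℝ) 1)
    (hv : v ∈ Ico (0:ℝ) 1) : (1 - v + u) / (((n:ℝ)+1) * (n+2)) ≤ lphi n u - lphi m v := by
  have hn' : (1:ℝ) ≤ n := by exact_mod_cast hn
  have hm' : (n:ℝ) + 1 ≤ m := by exact_mod_cast hnm
  have h0 : (0:ℝ) < n := by linarith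
  have hm0 : (0:ℝ) < m := by linarith
  have h1 : lphi m v ≤ (v + (n+1)) / ((n+1) * (n+2)) := by
    have e1 : lphi m v = 1 / ((m:ℝ)+1) + v / (m * (m+1)) := by
      rw [lphi]; field_simp; ring
    have e2 : (v + ((n:ℝ)+1)) / ((n+1) * (n+2)) = 1 / ((n:ℝ)+2) + v / ((n+1) * (n+2)) := by
      field_simp; ring
    rw [e1, e2]
    apply add_le_add
    · exact one_div_le_one_div_of_le (by positivity) (by linarith)
    · apply div_le_div_of_nonneg_left hv.1 (by positivity)
      apply mul_le_mul hm' (by linarith) (by positivity) (by positivity)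
  have h2 : (1 - v + u) / (((n:ℝ)+1) * (n+2)) ≤ lphi n u - (v + (n+1)) / ((n+1) * (n+2)) := by
    have e3 : lphi n u - (v + (n+1)) / ((n+1) * (n+2)) =
        (u * n + 2 * u + n - v * n) / (n * (((n:ℝ)+1) * (n+2))) := by
      rw [lphi]; field_simp; ring
    have e4 : (1 - v + u) / (((n:ℝ)+1) * (n+2)) = (n * (1 - v + u)) / (n * (((n:ℝ)+1) * (n+2))) := by
      field_simp
    rw [e3, e4]
    apply div_le_div_of_nonneg_right _ (by positivity)
    have := hu.1
    nlinarith
  linarith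

theorem luroth_isSys {L : ℝ → ℝ} (hL : IsLuroth L) : IsSys L lphi := by
  have hdig : ∀ x ∈ Ioo (0:ℝ) 1, ∃ n : ℕ, 1 ≤ n ∧ x ∈ Ico (1 / ((n:ℝ) + 1)) (1 / (n:ℝ)) := by
    intro x hx
    have h1 : (1:ℝ) < 1 / x := by rw [lt_div_iff₀ hx.1]; linarith [hx.2]
    have h2 : 1 < ⌈1/x⌉₊ := Nat.lt_ceil.2 (by exact_mod_cast h1)
    obtain ⟨n, hn⟩ : ∃ n, ⌈1/x⌉₊ = n + 1 := ⟨⌈1/x⌉₊ - 1, by omega⟩
    have hn1 : 1 ≤ n := by omega
    have hn' : (1:ℝ) ≤ n := by exact_mod_cast hn1
    refine ⟨n, hn1, ?_, ?_⟩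
    · have h3 : 1/x ≤ (n:ℝ) + 1 := by
        have := Nat.le_ceil (1/x)
        rw [hn] at this
        exact_mod_cast this
      rw [div_le_iff₀ (by positivity)]
      rw [div_le_iff₀ hx.1] at h3
      linarith
    · have h3 : (n:ℝ) < 1/x := by
        have : n < ⌈1/x⌉₊ := by omega
        exact Nat.lt_ceil.1 this
      rw [lt_div_iff₀ (by positivity)]
      rw [lt_div_iff₀ hx.1] at h3
      linarith
  refine ⟨fun n hn u hu => ?_, fun n hn u hu => ?_, fun n hn u hu => ?_, hL.1, fun x hx => ?_,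
    fun x hx => ?_, fun n hn u hu v hv => ?_, fun n hn u hu v hv => ?_,
    fun n m hn hm u hu v hv => ?_, fun K => ?_, fun u hu h1 => ?_⟩
  · have hn' : (1:ℝ) ≤ n := by exact_mod_cast hn
    have h0 : (0:ℝ) < n := by linarith
    rw [lphi, div_le_div_iff₀ (by positivity) (by positivity)]
    have := hu.1
    nlinarith [mul_nonneg hu.1 (by linarith : (0:ℝ) ≤ n + 1)]
  · have hn' : (1:ℝ) ≤ n := by exact_mod_cast hn
    have h0 : (0:ℝ) < n := by linarith
    rw [lphi, div_le_div_iff₀ (by positivity) (by positivity)]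
    have := hu.2
    nlinarith
  · have hn' : (1:ℝ) ≤ n := by exact_mod_cast hn
    have h0 : (0:ℝ) < n := by linarith
    rw [hL.2 n hn _ (lphi_Ico hn hu), lphi]
    field_simp
    ring
  · by_cases h0 : x = 0
    · rw [h0, hL.1]; exact ⟨le_rfl, one_pos⟩
    · obtain ⟨n, hn, hxn⟩ := hdig x ⟨lt_of_le_of_ne hx.1 (Ne.symm h0), hx.2⟩
      have hn' : (1:ℝ) ≤ n := by exact_mod_cast hn
      rw [hL.2 n hn x hxn]
      have h1 := hxn.1
      have h2 := hxn.2
      rw [div_le_iff₀ (by positivity)] at h1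
      rw [lt_div_iff₀ (by positivity)] at h2
      constructor
      · nlinarith
      · nlinarith
  · obtain ⟨n, hn, hxn⟩ := hdig x hx
    have hn' : (1:ℝ) ≤ n := by exact_mod_cast hn
    refine ⟨n, hn, ?_⟩
    rw [hL.2 n hn x hxn, lphi]
    field_simp
    ring
  · have hn' : (1:ℝ) ≤ n := by exact_mod_cast hn
    rw [lphi_sub hn]
    apply div_le_div_of_nonneg_left (abs_nonneg _) (by positivity)
    nlinarith
  · have hn' : (1:ℝ) ≤ n := by exact_mod_cast hn
    rw [lphi_sub hn]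
    apply div_le_div_of_nonneg_left (abs_nonneg _) (by positivity)
    nlinarith
  · have hn' : (1:ℝ) ≤ n := by exact_mod_cast hn
    have hm' : (1:ℝ) ≤ m := by exact_mod_cast hm
    rw [lphi_sub hn, lphi_sub hm, div_div]
    apply div_le_div_of_nonneg_left (abs_nonneg _) (by positivity)
    have h1 : (2:ℝ) ≤ m * (m+1) := by nlinarith
    have h2 : (2:ℝ) ≤ n * (n+1) := by nlinarith
    nlinarith
  · have hK : (0:ℝ) ≤ K := by positivity
    refine ⟨1 / (4 * ((K:ℝ)+2)^2), by positivity, ?_⟩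
    intro m n hm hmK hn u hu v hv huv hd
    have hη0 : (0:ℝ) < 1 / (4 * ((K:ℝ)+2)^2) := by positivity
    have hηe : 1 / (4 * ((K:ℝ)+2)^2) * (4 * ((K:ℝ)+2)^2) = 1 := by field_simp
    have hη1 : 1 / (4 * ((K:ℝ)+2)^2) ≤ 1/4 := by
      apply one_div_le_one_div_of_le (by norm_num)
      nlinarith
    generalize 1 / (4 * ((K:ℝ)+2)^2) = η at hη0 hηe hη1 huv hd
    have hmK' : (m:ℝ) ≤ K := by exact_mod_cast hmK
    -- general contradiction
    have key : ∀ (k : ℕ) (r : ℝ), k ≤ K → 1 - η < r →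
        η < r / (((k:ℝ)+1) * (k+2)) := by
      intro k r hk hr
      have hk' : (k:ℝ) ≤ K := by exact_mod_cast hk
      have hk0 : (0:ℝ) ≤ k := by positivity
      rw [lt_div_iff₀ (by positivity)]
      have h1 : ((k:ℝ)+1) * (k+2) ≤ ((K:ℝ)+2)^2 := by nlinarith
      have h2 : η * (((k:ℝ)+1) * (k+2)) ≤ η * ((K:ℝ)+2)^2 := by gcongr
      have h3 : η * ((K:ℝ)+2)^2 = 1/4 := by linarith
      linarith
    have h4 := abs_lt.1 huv
    have h5 := abs_lt.1 hd
    rcases lt_trichotomy n m with hlt | heq | hgt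
    · exfalso
      have h6 := lphi_diff hn hlt hu hv
      have h7 := key n (1 - v + u) (by omega) (by linarith)
      linarith
    · exact heq
    · exfalso
      have h6 := lphi_diff hm hgt hv hu
      have h7 := key m (1 - u + v) (by omega) (by linarith)
      linarith
  · right
    rw [lphi] at h1
    push_cast at h1
    linarith

/-- The adapted measure. -/
noncomputable def lmeas : Measure ℝ :=
  (volume.restrict (Ico (0:ℝ) 1)).withDensity (fun _ => ENNReal.ofReal 1)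

theorem luroth_isMeas : IsMeas lphi lmeas := by
  refine isMeas_of_density (ρ := fun _ => 1) (φ' := fun n _ => 1 / ((n:ℝ) * (n+1)))
    (by fun_prop)
    (fun n => by unfold lphi; fun_prop) (fun n => by fun_prop) ?_ ?_ ?_ ?_ ?_ ?_
  · intro u hu; norm_num
  · intro u hu; norm_num
  · intro n hn u hu; norm_num
  · intro n hn u hu
    have h1 : lphi n = fun u : ℝ => (u + n) / ((n:ℝ) * (n+1)) := rfl
    rw [h1]
    exact ((hasDerivAt_id u).add_const (n:ℝ)).div_const _
  · intro n hn u hu v hv huv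
    have hn' : (1:ℝ) ≤ n := by exact_mod_cast hn
    have h0 := lphi_sub hn u v
    rw [huv, sub_self, abs_zero] at h0
    have h1 : |u - v| = 0 := by
      rcases div_eq_zero_iff.1 h0.symm with h2 | h2
      · exact h2
      · exfalso; have : (0:ℝ) < n * (n+1) := by positivity
        linarith
    linarith [abs_eq_zero.1 h1]
  · intro j u hu
    have key : ∑ n ∈ Finset.Icc 1 j, |1 / ((n:ℝ) * (n+1))| * 1 = (j:ℝ) / (j + 1) := by
      induction j with
      | zero => simp
      | succ j ih =>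
        rw [Finset.sum_Icc_succ_top (by omega), ih, abs_of_nonneg (by positivity)]
        push_cast
        field_simp
        ring
    rw [key, mul_one]

end Pool.Agent.R288.AS
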