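import Pool.Agent.R288.AS.Lower

/-! Almost every point has an asymptotic set of dimension `1/2`. -/

namespace Pool.Agent.R288.AS
open Set MeasureTheory Filter Topology Metric
open scoped ENNReal NNReal

variable {T : ℝ → ℝ} {φ : ℕ → ℝ → ℝ} {γ : Measure ℝ}

/-- A measure adapted to the branches. -/
structure IsMeas (φ : ℕ → ℝ → ℝ) (γ : Measure ℝ) : Prop where
  le : ∀ s, γ s ≤ volume s
  ac : ∀ s ⊆ Ico (0:ℝ) 1, γ s = 0 → volume s = 0
  key : ∀ B ⊆ Ico (0:ℝ) 1, MeasurableSet B → ∀ j : ℕ,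
    ∑ n ∈ Finset.Icc 1 j, γ (φ n '' B) ≤ ENNReal.ofReal ((j:ℝ) / (j+1)) * γ B

lemma IsMeas.key' (hγ : IsMeas φ γ) {B : Set ℝ} (hB : B ⊆ Ico (0:ℝ) 1) (j : ℕ) :
    ∑ n ∈ Finset.Icc 1 j, γ (φ n '' B) ≤ ENNReal.ofReal ((j:ℝ) / (j+1)) * γ B := by
  set B' := toMeasurable γ B ∩ Ico (0:ℝ) 1 with hB'
  have hBB' : B ⊆ B' := subset_inter (subset_toMeasurable γ B) hB
  have hm : MeasurableSet B' := (measurableSet_toMeasurable γ B).inter measurableSet_Ico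
  have h1 : γ B' ≤ γ B := (measure_mono inter_subset_left).trans (measure_toMeasurable B).le
  calc _ ≤ ∑ n ∈ Finset.Icc 1 j, γ (φ n '' B') :=
        Finset.sum_le_sum fun n _ => measure_mono (image_mono hBB')
    _ ≤ _ := hγ.key B' inter_subset_right hm j
    _ ≤ _ := by gcongr

/-- Points whose orbit never hits zero. -/
def GG (T : ℝ → ℝ) : Set ℝ := {y | y ∈ Ico (0:ℝ) 1 ∧ ∀ k, T^[k] y ≠ 0}

lemma GG_sub : GG T ⊆ Ico (0:ℝ) 1 := fun _ hy => hy.1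

lemma IsMeas.tot (hγ : IsMeas φ γ) {B : Set ℝ} (hB : B ⊆ Ico (0:ℝ) 1) :
    ∑' n : ℕ, γ (φ (n+1) '' B) ≤ γ B := by
  refine ENNReal.tsum_le_of_sum_range_le fun j => ?_
  have h1 := hγ.key' hB j
  have h2 : ∑ n ∈ Finset.range j, γ (φ (n+1) '' B) = ∑ n ∈ Finset.Icc 1 j, γ (φ n '' B) := by
    rw [Finset.range_eq_Ico, Finset.sum_Ico_add' (fun n => γ (φ n '' B)) 0 j 1]
    rfl
  rw [h2]
  refine h1.trans ?_
  have h3 : ENNReal.ofReal ((j:ℝ) / (j+1)) ≤ 1 := by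
    rw [← ENNReal.ofReal_one]
    apply ENNReal.ofReal_le_ofReal
    rw [div_le_one (by positivity)]; linarith
  calc _ ≤ 1 * γ B := by gcongr
    _ = _ := one_mul _

lemma GG_digit (h : IsSys T φ) {y : ℝ} (hy : y ∈ GG T) :
    ∃ n, 1 ≤ n ∧ φ n (T y) = y ∧ T y ∈ GG T := by
  have h0 : y ≠ 0 := hy.2 0
  have hy' : y ∈ Ioo (0:ℝ) 1 := ⟨lt_of_le_of_ne hy.1.1 (Ne.symm h0), hy.1.2⟩
  obtain ⟨n, hn, hφ⟩ := h.dig y hy'
  refine ⟨n, hn, hφ, h.maps y hy.1, fun k => ?_⟩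
  rw [← Function.iterate_succ_apply]; exact hy.2 (k+1)

lemma meas_pull (h : IsSys T φ) (hγ : IsMeas φ γ) (H : Set ℝ) (N : ℕ) :
    γ {y | y ∈ GG T ∧ T^[N] y ∈ H} ≤ γ (H ∩ Ico (0:ℝ) 1) := by
  induction N with
  | zero =>
    refine measure_mono ?_
    rintro y ⟨hy, hyH⟩
    exact ⟨by simpa using hyH, hy.1⟩
  | succ N ih =>
    have hsub : {y | y ∈ GG T ∧ T^[N+1] y ∈ H} ⊆
        ⋃ n : ℕ, φ (n+1) '' {y | y ∈ GG T ∧ T^[N] y ∈ H} := by
      rintro y ⟨hy, hyH⟩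
      obtain ⟨n, hn, hφ, hTy⟩ := GG_digit h hy
      refine mem_iUnion.2 ⟨n - 1, T y, ⟨hTy, ?_⟩, ?_⟩
      · rwa [← Function.iterate_succ_apply]
      · rw [Nat.sub_add_cancel hn]; exact hφ
    refine (measure_mono hsub).trans ((measure_iUnion_le _).trans ?_)
    refine (hγ.tot ?_).trans ih
    rintro y ⟨hy, _⟩
    exact hy.1

/-- Points with small first digits. -/
def Hs (T : ℝ → ℝ) (φ : ℕ → ℝ → ℝ) (j L : ℕ) : Set ℝ :=
  {y | y ∈ GG T ∧ ∃ a, Codes T φ a y ∧ ∀ n < L, a n ≤ j}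

/-- Points with a large first digit. -/
def Hb (T : ℝ → ℝ) (φ : ℕ → ℝ → ℝ) (A : ℕ) : Set ℝ :=
  {y | y ∈ GG T ∧ ∃ a, Codes T φ a y ∧ A ≤ a 0}

lemma Codes.sh (h : IsSys T φ) {a : ℕ → ℕ} {y : ℝ} (hc : Codes T φ a y) (m : ℕ) :
    Codes T φ (sh m a) (T^[m] y) := by
  refine ⟨h.iter hc.1 m, fun n => hc.2.1 _, fun n => ?_⟩
  rw [← Function.iterate_add_apply, ← Function.iterate_add_apply]
  have := hc.2.2 (n + m)
  simp only [AS.sh]
  rwa [show n + 1 + m = n + m + 1 by ring]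

lemma meas_one (hγ : IsMeas φ γ) {E : Set ℝ} (hE : E ⊆ Ico (0:ℝ) 1) : γ E ≤ 1 := by
  refine (measure_mono hE).trans ((hγ.le _).trans ?_)
  simp

lemma meas_Hs (h : IsSys T φ) (hγ : IsMeas φ γ) (j L : ℕ) :
    γ (Hs T φ j L) ≤ ENNReal.ofReal ((j:ℝ) / (j+1)) ^ L := by
  induction L with
  | zero =>
    rw [pow_zero]
    exact meas_one hγ fun y hy => hy.1.1
  | succ L ih =>
    have hsub : Hs T φ j (L+1) ⊆ ⋃ n ∈ Finset.Icc 1 j, φ n '' (Hs T φ j L) := by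
      rintro y ⟨hy, a, ha, hj⟩
      have h1 : φ (a 0) (T y) = y := by simpa using ha.2.2 0
      refine mem_iUnion₂.2 ⟨a 0, Finset.mem_Icc.2 ⟨ha.2.1 0, hj 0 (by omega)⟩, T y, ?_, h1⟩
      refine ⟨⟨h.maps y hy.1, fun k => ?_⟩, AS.sh 1 a, by simpa using ha.sh h 1, ?_⟩
      · rw [← Function.iterate_succ_apply]; exact hy.2 (k+1)
      · intro n hn
        exact hj (n+1) (by omega)
    refine (measure_mono hsub).trans ((measure_biUnion_finset_le _ _).trans ?_)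
    refine (hγ.key' (fun y hy => hy.1.1) j).trans ?_
    rw [pow_succ']
    gcongr

lemma meas_Hb (h : IsSys T φ) (hγ : IsMeas φ γ) {A : ℕ} (hA : 1 ≤ A) :
    γ (Hb T φ A) ≤ ENNReal.ofReal (1 / (A:ℝ)) := by
  have hsub : Hb T φ A ⊆ Icc (0:ℝ) (1/A) := by
    rintro y ⟨hy, a, ha, hA'⟩
    refine ⟨hy.1.1, ?_⟩
    have h1 : φ (a 0) (T y) = y := by simpa using ha.2.2 0
    have h2 := h.hi (a 0) (ha.2.1 0) (T y) ⟨(h.maps y hy.1).1, (h.maps y hy.1).2.le⟩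
    rw [h1] at h2
    refine h2.trans ?_
    apply one_div_le_one_div_of_le (by exact_mod_cast hA)
    exact_mod_cast hA'
  refine (measure_mono hsub).trans ((hγ.le _).trans ?_)
  rw [Real.volume_Icc, sub_zero]

lemma ratio_pow (j : ℕ) : (((j:ℝ) / (j+1)) ^ (j+1)) ≤ 1/2 := by
  rcases Nat.eq_zero_or_pos j with hj | hj
  · subst hj; norm_num
  · have hj' : (0:ℝ) < j := by exact_mod_cast hj
    have h1 : (2:ℝ) ≤ (1 + 1/(j:ℝ))^(j+1) := by
      have hq : (-2:ℝ) ≤ 1/(j:ℝ) := by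
        have : (0:ℝ) ≤ 1/(j:ℝ) := by positivity
        linarith
      have hb := one_add_mul_le_pow hq (j+1)
      refine le_trans ?_ hb
      push_cast
      have : ((j:ℝ)+1) * (1/j) = 1 + 1/j := by field_simp
      rw [this]
      have : (0:ℝ) ≤ 1/(j:ℝ) := by positivity
      linarith
    have h2 : ((j:ℝ) / (j+1)) = (1 + 1/(j:ℝ))⁻¹ := by field_simp
    rw [h2, inv_pow, show (1:ℝ)/2 = 2⁻¹ by norm_num]
    exact inv_anti₀ (by norm_num) h1

/-- Block lengths. -/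
lemma block_len (j : ℕ) : (j+1) * j ≤ (j+1)^3 - j^3 := by
  have : (j+1)^3 = j^3 + (3*j^2 + 3*j + 1) := by ring
  rw [this]
  have h2 : (j+1)*j = j^2 + j := by ring
  rw [h2]
  have : j^3 + (3*j^2 + 3*j + 1) - j^3 = 3*j^2 + 3*j + 1 := by omega
  rw [this]
  nlinarith

/-- The generic digit property. -/
def QQ (T : ℝ → ℝ) (φ : ℕ → ℝ → ℝ) (x : ℝ) : Prop :=
  ∃ a, Codes T φ a x ∧ ∃ j0 : ℕ, ∀ j ≥ j0, (∃ n, j^3 ≤ n ∧ n < (j+1)^3 ∧ j < a n) ∧
    ∀ n < (j+1)^3, a n < 2^j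

lemma ae_QQ (h : IsSys T φ) (hγ : IsMeas φ γ) : γ {x | x ∈ GG T ∧ ¬ QQ T φ x} = 0 := by
  set B1 : ℕ → Set ℝ := fun j => {y | y ∈ GG T ∧ T^[j^3] y ∈ Hs T φ j ((j+1)^3 - j^3)} with hB1
  set B2 : ℕ → Set ℝ := fun j => ⋃ n ∈ Finset.range ((j+1)^3),
    {y | y ∈ GG T ∧ T^[n] y ∈ Hb T φ (2^j)} with hB2
  have m1 : ∀ j, γ (B1 j) ≤ ENNReal.ofReal ((1/2)^j) := by
    intro j
    refine (meas_pull h hγ _ _).trans ((measure_mono inter_subset_left).trans ?_)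
    refine (meas_Hs h hγ _ _).trans ?_
    rw [← ENNReal.ofReal_pow (by positivity)]
    apply ENNReal.ofReal_le_ofReal
    have h0 : (0:ℝ) ≤ (j:ℝ) / (j+1) := by positivity
    have h1 : (j:ℝ) / (j+1) ≤ 1 := by rw [div_le_one (by positivity)]; linarith
    calc ((j:ℝ) / (j+1)) ^ ((j+1)^3 - j^3) ≤ ((j:ℝ) / (j+1)) ^ ((j+1)*j) :=
          pow_le_pow_of_le_one h0 h1 (block_len j)
      _ = (((j:ℝ) / (j+1)) ^ (j+1)) ^ j := by rw [pow_mul]
      _ ≤ (1/2)^j := by gcongr; exact ratio_pow j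
  have m2 : ∀ j, γ (B2 j) ≤ ENNReal.ofReal ((j+1)^3 * (1/2)^j) := by
    intro j
    refine (measure_biUnion_finset_le _ _).trans ?_
    have h1 : ∀ n ∈ Finset.range ((j+1)^3), γ {y | y ∈ GG T ∧ T^[n] y ∈ Hb T φ (2^j)} ≤
        ENNReal.ofReal ((1/2)^j) := by
      intro n _
      refine (meas_pull h hγ _ _).trans ((measure_mono inter_subset_left).trans ?_)
      refine (meas_Hb h hγ Nat.one_le_two_pow).trans (le_of_eq ?_)
      congr 1
      push_cast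
      rw [one_div, one_div, inv_pow]
    refine (Finset.sum_le_sum h1).trans ?_
    rw [Finset.sum_const, Finset.card_range, nsmul_eq_mul, ENNReal.ofReal_mul (by positivity)]
    gcongr
    rw [← ENNReal.ofReal_natCast]
    push_cast
    exact le_rfl
  have s1 : ∑' j, γ (B1 j) ≠ ∞ := by
    refine ne_top_of_le_ne_top ?_ (ENNReal.tsum_le_tsum m1)
    rw [← ENNReal.ofReal_tsum_of_nonneg (fun j => by positivity)
      (summable_geometric_of_lt_one (by norm_num) (by norm_num))]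
    exact ENNReal.ofReal_ne_top
  have s2 : ∑' j, γ (B2 j) ≠ ∞ := by
    refine ne_top_of_le_ne_top ?_ (ENNReal.tsum_le_tsum m2)
    have hsum : Summable (fun j : ℕ => ((j:ℝ)+1)^3 * (1/2)^j) := by
      have h1 : Summable (fun j : ℕ => ((j:ℝ)^3 * (1/2)^j)) :=
        summable_pow_mul_geometric_of_norm_lt_one 3 (by norm_num)
      have h2 := ((summable_nat_add_iff 1).2 h1).mul_left 2
      refine h2.congr fun j => ?_
      push_cast
      rw [pow_succ]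
      ring
    rw [← ENNReal.ofReal_tsum_of_nonneg (fun j => by positivity) hsum]
    exact ENNReal.ofReal_ne_top
  have e1 := ae_eventually_notMem s1
  have e2 := ae_eventually_notMem s2
  have e3 : ∀ᵐ x ∂γ, ¬ (x ∈ GG T ∧ ¬ QQ T φ x) := by
    filter_upwards [e1, e2] with x hx1 hx2
    rintro ⟨hxG, hnQ⟩
    apply hnQ
    obtain ⟨a, ha⟩ := exists_codes h hxG.1 hxG.2
    obtain ⟨j0, hj0⟩ := eventually_atTop.1 (hx1.and hx2)
    refine ⟨a, ha, j0, fun j hj => ⟨?_, ?_⟩⟩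
    · have h1 := (hj0 j hj).1
      by_contra hcon
      push Not at hcon
      apply h1
      refine ⟨hxG, ⟨h.iter hxG.1 _, fun k => ?_⟩, sh (j^3) a, ha.sh h _, fun n hn => ?_⟩
      · rw [← Function.iterate_add_apply]; exact hxG.2 _
      · exact hcon (n + j^3) (by omega) (by omega)
    · have h2 := (hj0 j hj).2
      intro n hn
      by_contra hcon
      push Not at hcon
      apply h2
      refine mem_iUnion₂.2 ⟨n, Finset.mem_range.2 hn, hxG, ⟨h.iter hxG.1 _, fun k => ?_⟩,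
        sh n a, ha.sh h _, ?_⟩
      · rw [← Function.iterate_add_apply]; exact hxG.2 _
      · simpa [sh] using hcon
  exact measure_eq_zero_iff_ae_notMem.2 e3

lemma ES_pow4 (i : ℕ) : (i:ℝ)^5 / 5 ≤ ES (fun i => (i+1)^4) i := by
  induction i with
  | zero => simp [ES]
  | succ i ih =>
    rw [ES_succ]
    push_cast
    have hi : (0:ℝ) ≤ i := by positivity
    nlinarith [pow_nonneg hi 2, pow_nonneg hi 3, pow_nonneg hi 4]

lemma ofReal_le_of_forall_lt {α : ℝ} {d : ℝ≥0∞} (hα : 0 < α)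
    (H : ∀ s, 0 < s → s < α → ENNReal.ofReal s ≤ d) : ENNReal.ofReal α ≤ d := by
  refine le_of_forall_lt fun c hc => ?_
  have hct : c ≠ ∞ := (hc.trans ENNReal.ofReal_lt_top).ne
  have hc1 : c.toReal < α := by
    rw [ENNReal.lt_ofReal_iff_toReal_lt hct] at hc
    exact hc
  have hc0 : 0 ≤ c.toReal := ENNReal.toReal_nonneg
  have h1 := H ((c.toReal + α)/2) (by linarith) (by linarith)
  refine lt_of_lt_of_le ?_ h1
  rw [ENNReal.lt_ofReal_iff_toReal_lt hct]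
  linarith

lemma arith_aux {s : ℝ} (hs0 : 0 < s) (hs1 : s < 1/2) (j0 : ℕ) :
    ∃ C : ℝ, ∀ i : ℕ, s * (((i+1)^4 : ℕ) : ℝ) +
        s * (((2 * (j0 + i + 1)^4 : ℕ) : ℝ) + 4 * i + 4) ≤
        (1 - 2*s) * ES (fun i => (i+1)^4) i + C := by
  obtain ⟨δ, hδ⟩ : ∃ δ : ℝ, δ = (1 - 2*s)/5 := ⟨_, rfl⟩
  have hδ0 : 0 < δ := by rw [hδ]; linarith
  obtain ⟨D, hD⟩ : ∃ D : ℝ, D = s * (1 + (2 * ((j0:ℝ)+1)^4 + 4)) := ⟨_, rfl⟩
  have hD0 : 0 < D := by rw [hD]; positivity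
  obtain ⟨R, hR⟩ : ∃ R : ℝ, R = 16 * D / δ := ⟨_, rfl⟩
  have hR0 : 0 < R := by rw [hR]; positivity
  refine ⟨D * (R+1)^4, fun i => ?_⟩
  have hi : (0:ℝ) ≤ i := by positivity
  have h1 : s * (((i+1)^4 : ℕ) : ℝ) +
    s * (((2 * (j0 + i + 1)^4 : ℕ) : ℝ) + 4 * i + 4) ≤ D * ((i:ℝ)+1)^4 := by
    have h2 : (((2 * (j0 + i + 1)^4 : ℕ) : ℝ)) ≤ 2 * ((j0:ℝ)+1)^4 * ((i:ℝ)+1)^4 := by
      push_cast
      have h3 : (j0:ℝ) + i + 1 ≤ ((j0:ℝ)+1) * ((i:ℝ)+1) := by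
        have : (0:ℝ) ≤ j0 * i := by positivity
        nlinarith
      have h4 : ((j0:ℝ) + i + 1)^4 ≤ (((j0:ℝ)+1) * ((i:ℝ)+1))^4 := by gcongr
      rw [mul_pow] at h4
      linarith
    have h5 : 4 * (i:ℝ) + 4 ≤ 4 * ((i:ℝ)+1)^4 := by
      have h6 : (i:ℝ) + 1 ≤ ((i:ℝ)+1)^4 := by
        have := one_le_pow₀ (n := 3) (by linarith : (1:ℝ) ≤ (i:ℝ)+1)
        have h7 : ((i:ℝ)+1)^4 = ((i:ℝ)+1) * ((i:ℝ)+1)^3 := by ring
        rw [h7]; nlinarith
      linarith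
    have h8 : (((i+1)^4 : ℕ) : ℝ) = ((i:ℝ)+1)^4 := by push_cast; ring
    rw [h8, hD]
    have h9 : s * (((2 * (j0 + i + 1)^4 : ℕ) : ℝ) + 4 * i + 4) ≤
        s * (2 * ((j0:ℝ)+1)^4 * ((i:ℝ)+1)^4 + 4 * ((i:ℝ)+1)^4) := by
      apply mul_le_mul_of_nonneg_left _ hs0.le
      linarith
    calc _ ≤ _ := add_le_add le_rfl h9
      _ = _ := by ring
  refine h1.trans ?_
  have h9 := ES_pow4 i
  have h10 : δ * (i:ℝ)^5 ≤ (1 - 2*s) * ES (fun i => (i+1)^4) i := by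
    have h11 : 0 ≤ 1 - 2*s := by linarith
    calc δ * (i:ℝ)^5 = (1 - 2*s) * ((i:ℝ)^5/5) := by rw [hδ]; ring
      _ ≤ _ := mul_le_mul_of_nonneg_left h9 h11
  by_cases hiR : (i:ℝ) ≤ R
  · have h12 : D * ((i:ℝ)+1)^4 ≤ D * (R+1)^4 := by gcongr
    have h13 : 0 ≤ δ * (i:ℝ)^5 := by positivity
    linarith
  · push Not at hiR
    have hi1 : (1:ℝ) ≤ i := by
      have : 0 < i := by
        rcases Nat.eq_zero_or_pos i with h0 | h0
        · subst h0; simp at hiR; linarith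
        · exact h0
      exact_mod_cast this
    have h12 : ((i:ℝ)+1)^4 ≤ 16 * (i:ℝ)^4 := by
      have : (i:ℝ) + 1 ≤ 2 * i := by linarith
      calc ((i:ℝ)+1)^4 ≤ (2 * (i:ℝ))^4 := by gcongr
        _ = _ := by ring
    have h13 : D * (16 * (i:ℝ)^4) ≤ δ * (i:ℝ)^5 := by
      have h14 : 16 * D ≤ δ * i := by
        rw [hR, div_lt_iff₀ hδ0] at hiR
        linarith
      have h15 : (0:ℝ) ≤ (i:ℝ)^4 := by positivity
      calc D * (16 * (i:ℝ)^4) = (16 * D) * (i:ℝ)^4 := by ring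
        _ ≤ (δ * i) * (i:ℝ)^4 := mul_le_mul_of_nonneg_right h14 h15
        _ = _ := by ring
    have h16 : D * ((i:ℝ)+1)^4 ≤ D * (16 * (i:ℝ)^4) := by gcongr
    have h17 : 0 ≤ D * (R+1)^4 := by positivity
    linarith

/-- Generic points have asymptotic sets of dimension `1/2`. -/
lemma QQ_dim (h : IsSys T φ) {x : ℝ} (hQ : QQ T φ x) : dimH (AS T x) = 1/2 := by
  obtain ⟨a, ha, j0, hj0⟩ := hQ
  refine le_antisymm (dimH_AS_le h ha.1) ?_
  have hpos : ∀ i : ℕ, ∃ n, (j0 + i)^3 ≤ n ∧ n < (j0 + i + 1)^3 ∧ j0 + i < a n :=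
    fun i => (hj0 (j0 + i) (by omega)).1
  choose p hp1 hp2 hp3 using hpos
  have hmono : StrictMono p := by
    refine strictMono_nat_of_lt_succ fun i => ?_
    have h1 := hp2 i
    have h2 := hp1 (i+1)
    rw [show j0 + (i+1) = j0 + i + 1 by ring] at h2
    omega
  have hap : Tendsto (fun i => a (p i)) atTop atTop := by
    refine tendsto_atTop_mono (fun i => ?_) tendsto_id
    have := hp3 i
    simp only [id]; omega
  have he : Tendsto (fun i : ℕ => (i+1)^4) atTop atTop := by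
    refine tendsto_atTop_mono (fun i => ?_) tendsto_id
    simp only [id]
    calc i ≤ (i+1)^1 := by rw [pow_one]; omega
      _ ≤ (i+1)^4 := Nat.pow_le_pow_right (by omega) (by norm_num)
  have hw : ∀ i, ∏ n ∈ Finset.range (p i), ((a n : ℝ) + 1)^2 ≤ 2^(2 * (j0 + i + 1)^4) := by
    intro i
    have h1 : ∀ n ∈ Finset.range (p i), ((a n : ℝ) + 1)^2 ≤ 2^(2 * (j0 + i)) := by
      intro n hn
      have h2 := (hj0 (j0+i) (by omega)).2 n (by have := Finset.mem_range.1 hn; have := hp2 i; omega)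
      have h3 : (a n : ℝ) + 1 ≤ 2^(j0 + i) := by exact_mod_cast h2
      rw [mul_comm, pow_mul]
      gcongr
    calc _ ≤ ∏ n ∈ Finset.range (p i), (2:ℝ)^(2 * (j0 + i)) :=
          Finset.prod_le_prod (fun n _ => by positivity) h1
      _ = (2:ℝ)^(2 * (j0 + i) * p i) := by
          rw [Finset.prod_const, Finset.card_range, ← pow_mul]
      _ ≤ _ := by
          apply pow_le_pow_right₀ (by norm_num)
          have h4 : p i ≤ (j0 + i + 1)^3 := (hp2 i).le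
          calc 2 * (j0 + i) * p i ≤ 2 * (j0 + i + 1) * (j0+i+1)^3 :=
                Nat.mul_le_mul (by omega) h4
            _ = _ := by ring
  have hfin : ENNReal.ofReal (1/2) ≤ dimH (AS T x) := by
    refine ofReal_le_of_forall_lt (by norm_num) fun s hs0 hs1 => ?_
    obtain ⟨C, hC⟩ := arith_aux hs0 hs1 j0
    exact le_dimH_AS h ha hmono hap he (fun i => Nat.one_le_pow _ _ (by omega)) hw hs0
      (by linarith) hC
  have h20 : (1/2 : ℝ≥0∞) = ENNReal.ofReal (1/2) := by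
    rw [ENNReal.ofReal_div_of_pos (by norm_num)]; simp
  rw [h20]; exact hfin

/-- The set of points with asymptotic set of dimension `1/2` has full dimension. -/
theorem dimH_half (h : IsSys T φ) (hγ : IsMeas φ γ) :
    dimH {x | x ∈ Ico (0:ℝ) 1 ∧ dimH (AS T x) = 1/2} = 1 := by
  set S := {x | x ∈ Ico (0:ℝ) 1 ∧ dimH (AS T x) = 1/2} with hS
  have hsub : Ico (0:ℝ) 1 \ S ⊆ Zc T ∪ {x | x ∈ GG T ∧ ¬ QQ T φ x} := by
    rintro x ⟨hx, hnS⟩
    by_cases hz : ∃ k, T^[k] x = 0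
    · left; exact ⟨hx, hz⟩
    · right
      push Not at hz
      exact ⟨⟨hx, hz⟩, fun hQ => hnS ⟨hx, QQ_dim h hQ⟩⟩
  have hγ0 : γ (Ico (0:ℝ) 1 \ S) = 0 := by
    refine le_antisymm ((measure_mono hsub).trans ((measure_union_le _ _).trans ?_)) zero_le
    rw [ae_QQ h hγ, add_zero]
    refine (hγ.le _).trans (le_of_eq ((Zc_countable h).measure_zero _))
  have hv0 := hγ.ac _ sdiff_subset hγ0
  have hvS : volume S ≠ 0 := by
    intro h0
    have h1 : volume (Ico (0:ℝ) 1) ≤ volume (Ico (0:ℝ) 1 \ S) + volume S := by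
      refine (measure_mono ?_).trans (measure_union_le _ _)
      intro x hx
      by_cases hxS : x ∈ S
      · right; exact hxS
      · left; exact ⟨hx, hxS⟩
    rw [hv0, h0, Real.volume_Ico] at h1
    norm_num at h1
  refine le_antisymm ?_ ?_
  · calc dimH S ≤ dimH (univ : Set ℝ) := dimH_mono (subset_univ _)
      _ = 1 := Real.dimH_univ
  · have h2 : μH[((1:ℝ≥0):ℝ)] S ≠ 0 := by
      rw [NNReal.coe_one, hausdorffMeasure_real]; exact hvS
    simpa using le_dimH_of_hausdorffMeasure_ne_zero h2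

lemma exists_half (h : IsSys T φ) (hγ : IsMeas φ γ) :
    ∃ x ∈ Ico (0:ℝ) 1, dimH (AS T x) = 1/2 := by
  by_contra hcon
  push Not at hcon
  have h1 := dimH_half h hγ
  have h2 : {x | x ∈ Ico (0:ℝ) 1 ∧ dimH (AS T x) = 1/2} = ∅ := by
    ext x
    simp only [mem_ofPred_eq, mem_empty_iff_false, iff_false, not_and]
    exact hcon x
  rw [h2, dimH_empty] at h1
  exact zero_ne_one h1

end Pool.Agent.R288.AS
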