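import Pool.Agent.R288.AS.Content

/-! Abstract interval maps with countably many full branches (Gauss, Lüroth), asymptotic sets, and
the upper bound `1/2` for their dimension. -/

namespace Pool.Agent.R288.AS
open Set MeasureTheory Filter Topology Metric
open scoped ENNReal NNReal

/-- A map `T` of `[0,1)` with inverse branches `φ n`, `n ≥ 1`. -/
structure IsSys (T : ℝ → ℝ) (φ : ℕ → ℝ → ℝ) : Prop where
  lo : ∀ n : ℕ, 1 ≤ n → ∀ u ∈ Icc (0:ℝ) 1, 1 / ((n:ℝ) + 1) ≤ φ n u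
  hi : ∀ n : ℕ, 1 ≤ n → ∀ u ∈ Icc (0:ℝ) 1, φ n u ≤ 1 / (n:ℝ)
  inv : ∀ n : ℕ, 1 ≤ n → ∀ u ∈ Ico (0:ℝ) 1, T (φ n u) = u
  zero : T 0 = 0
  maps : ∀ x ∈ Ico (0:ℝ) 1, T x ∈ Ico (0:ℝ) 1
  dig : ∀ x ∈ Ioo (0:ℝ) 1, ∃ n : ℕ, 1 ≤ n ∧ φ n (T x) = x
  lip : ∀ n : ℕ, 1 ≤ n → ∀ u ∈ Icc (0:ℝ) 1, ∀ v ∈ Icc (0:ℝ) 1,
    |φ n u - φ n v| ≤ |u - v| / (n:ℝ)^2
  alip : ∀ n : ℕ, 1 ≤ n → ∀ u ∈ Icc (0:ℝ) 1, ∀ v ∈ Icc (0:ℝ) 1,
    |u - v| / ((n:ℝ)+1)^2 ≤ |φ n u - φ n v|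
  two : ∀ n m : ℕ, 1 ≤ n → 1 ≤ m → ∀ u ∈ Icc (0:ℝ) 1, ∀ v ∈ Icc (0:ℝ) 1,
    |φ n (φ m u) - φ n (φ m v)| ≤ |u - v| / 2
  sep : ∀ K : ℕ, ∃ η > (0:ℝ), ∀ m n : ℕ, 1 ≤ m → m ≤ K → 1 ≤ n → ∀ u ∈ Ico (0:ℝ) 1,
    ∀ v ∈ Ico (0:ℝ) 1, |u - v| < η → |φ n u - φ m v| < η → n = m
  one : ∀ u ∈ Icc (0:ℝ) 1, φ 1 u = 1 → u = 0 ∨ u = 1

set_option linter.dupNamespace false in
/-- The asymptotic set. -/
def AS (T : ℝ → ℝ) (x : ℝ) : Set ℝ :=
  {y | y ∈ Ico (0:ℝ) 1 ∧ Tendsto (fun n => |T^[n] x - T^[n] y|) atTop (𝓝 0)}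

/-- Points whose orbit hits zero. -/
def Zc (T : ℝ → ℝ) : Set ℝ := {y | y ∈ Ico (0:ℝ) 1 ∧ ∃ k, T^[k] y = 0}

/-- Shadowing sets. -/
def EE (T : ℝ → ℝ) (x η : ℝ) (n : ℕ) : Set ℝ :=
  {z | z ∈ Ico (0:ℝ) 1 ∧ (∀ k, T^[k] z ≠ 0) ∧ ∀ k, |T^[k] z - T^[n+k] x| < η}

variable {T : ℝ → ℝ} {φ : ℕ → ℝ → ℝ}

lemma IsSys.iter (h : IsSys T φ) {x : ℝ} (hx : x ∈ Ico (0:ℝ) 1) (n : ℕ) :
    T^[n] x ∈ Ico (0:ℝ) 1 := by
  induction n with
  | zero => simpa using hx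
  | succ n ih => rw [Function.iterate_succ_apply']; exact h.maps _ ih

lemma IsSys.phi_mem (h : IsSys T φ) {n : ℕ} (hn : 1 ≤ n) {u : ℝ} (hu : u ∈ Icc (0:ℝ) 1) :
    φ n u ∈ Icc (0:ℝ) 1 := by
  have h1 := h.lo n hn u hu
  have h2 := h.hi n hn u hu
  have hn' : (1:ℝ) ≤ n := by exact_mod_cast hn
  constructor
  · exact le_trans (by positivity) h1
  · refine h2.trans ?_
    rw [div_le_one (by positivity)]; exact hn'

lemma IsSys.phi_pos (h : IsSys T φ) {n : ℕ} (hn : 1 ≤ n) {u : ℝ} (hu : u ∈ Icc (0:ℝ) 1) :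
    0 < φ n u := lt_of_lt_of_le (by positivity) (h.lo n hn u hu)

lemma EE_sub (x η : ℝ) (n : ℕ) : EE T x η n ⊆ Ico (0:ℝ) 1 := fun _ hz => hz.1

lemma EE_shift (h : IsSys T φ) {x η : ℝ} {n : ℕ} {z : ℝ} (hz : z ∈ EE T x η n) (k : ℕ) :
    T^[k] z ∈ EE T x η (n + k) := by
  refine ⟨h.iter hz.1 k, fun j => ?_, fun j => ?_⟩
  · rw [← Function.iterate_add_apply]; exact hz.2.1 _
  · rw [← Function.iterate_add_apply]
    have := hz.2.2 (j + k)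
    rwa [show n + (j + k) = n + k + j by ring] at this

lemma hc_phi (h : IsSys T φ) {s : ℝ} (hs : 0 < s) {n : ℕ} (hn : 1 ≤ n) {E : Set ℝ}
    (hE : E ⊆ Icc 0 1) :
    hc s (φ n '' E) ≤ ENNReal.ofReal ((n:ℝ) ^ (-(2*s))) * hc s E := by
  have hn' : (1:ℝ) ≤ n := by exact_mod_cast hn
  have hn0 : (0:ℝ) < n := by linarith
  have hK : (0:ℝ) < 1 / (n:ℝ)^2 := by positivity
  have hl : LipschitzOnWith (Real.toNNReal (1 / (n:ℝ)^2)) (φ n) E := by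
    refine LipschitzOnWith.of_dist_le_mul fun u hu v hv => ?_
    rw [Real.dist_eq, Real.dist_eq, Real.coe_toNNReal _ hK.le]
    refine (h.lip n hn u (hE hu) v (hE hv)).trans (le_of_eq ?_)
    ring
  refine (hc_image hs (Real.toNNReal_pos.2 hK) hl).trans (le_of_eq ?_)
  congr 1
  change (ENNReal.ofReal (1 / (n:ℝ)^2)) ^ s = _
  rw [ENNReal.ofReal_rpow_of_pos hK]
  congr 1
  rw [show (1 / (n:ℝ)^2) = (n:ℝ) ^ (-2:ℝ) by
    rw [Real.rpow_neg hn0.le]; norm_num, ← Real.rpow_mul hn0.le]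
  congr 1
  ring

lemma hc_phi_le (h : IsSys T φ) {s : ℝ} (hs : 0 < s) {n : ℕ} (hn : 1 ≤ n) {E : Set ℝ}
    (hE : E ⊆ Icc 0 1) : hc s (φ n '' E) ≤ hc s E := by
  refine (hc_phi h hs hn hE).trans ?_
  have hn' : (1:ℝ) ≤ n := by exact_mod_cast hn
  have h1 : ENNReal.ofReal ((n:ℝ) ^ (-(2*s))) ≤ 1 := by
    rw [← ENNReal.ofReal_one]
    exact ENNReal.ofReal_le_ofReal (Real.rpow_le_one_of_one_le_of_nonpos hn' (by linarith))
  calc _ ≤ 1 * hc s E := by gcongr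
    _ = _ := one_mul _

lemma hc_phi_zero (h : IsSys T φ) {s : ℝ} (hs : 0 < s) {n : ℕ} (hn : 1 ≤ n) {E : Set ℝ}
    (hE : E ⊆ Icc 0 1) (h0 : hc s E = 0) : hc s (φ n '' E) = 0 :=
  le_antisymm ((hc_phi_le h hs hn hE).trans h0.le) zero_le

lemma hc_two (h : IsSys T φ) {s : ℝ} (hs : 0 < s) {n m : ℕ} (hn : 1 ≤ n) (hm : 1 ≤ m)
    {E : Set ℝ} (hE : E ⊆ Icc 0 1) :
    hc s (φ n '' (φ m '' E)) ≤ ENNReal.ofReal ((1/2) ^ s) * hc s E := by
  have hK : (0:ℝ) < 1 / 2 := by positivity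
  rw [← image_comp]
  have hl : LipschitzOnWith (Real.toNNReal (1 / 2)) (φ n ∘ φ m) E := by
    refine LipschitzOnWith.of_dist_le_mul fun u hu v hv => ?_
    rw [Real.dist_eq, Real.dist_eq, Real.coe_toNNReal _ hK.le]
    refine (h.two n m hn hm u (hE hu) v (hE hv)).trans (le_of_eq ?_)
    ring
  refine (hc_image hs (Real.toNNReal_pos.2 hK) hl).trans (le_of_eq ?_)
  congr 1
  change (ENNReal.ofReal (1 / 2)) ^ s = _
  rw [ENNReal.ofReal_rpow_of_pos hK]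

lemma Zc_countable (h : IsSys T φ) : (Zc T).Countable := by
  have key : ∀ k : ℕ, {y | y ∈ Ico (0:ℝ) 1 ∧ T^[k] y = 0}.Countable := by
    intro k
    induction k with
    | zero =>
      refine (countable_singleton (0:ℝ)).mono ?_
      rintro y ⟨_, hy⟩
      simpa using hy
    | succ k ih =>
      have hsub : {y | y ∈ Ico (0:ℝ) 1 ∧ T^[k+1] y = 0} ⊆
          {0} ∪ ⋃ n : ℕ, φ n '' {y | y ∈ Ico (0:ℝ) 1 ∧ T^[k] y = 0} := by
        rintro y ⟨hy, hy0⟩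
        by_cases hz : y = 0
        · left; exact hz
        · right
          have hy' : y ∈ Ioo (0:ℝ) 1 := ⟨lt_of_le_of_ne hy.1 (Ne.symm hz), hy.2⟩
          obtain ⟨n, hn, hφ⟩ := h.dig y hy'
          refine mem_iUnion.2 ⟨n, T y, ⟨h.maps y hy, ?_⟩, hφ⟩
          rwa [← Function.iterate_succ_apply]
      refine Countable.mono hsub ((countable_singleton 0).union (countable_iUnion fun n => ?_))
      exact ih.image _
  refine (countable_iUnion key).mono ?_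
  rintro y ⟨hy, k, hk⟩
  exact mem_iUnion.2 ⟨k, hy, hk⟩

/-- Preimages of content-null sets are content-null. -/
lemma hc_pull (h : IsSys T φ) {s : ℝ} (hs : 0 < s) {S : Set ℝ}
    (h0 : hc s S = 0) (N : ℕ) :
    hc s {y | y ∈ Ico (0:ℝ) 1 ∧ (∀ k, T^[k] y ≠ 0) ∧ T^[N] y ∈ S} = 0 := by
  induction N with
  | zero =>
    refine le_antisymm ((measure_mono ?_).trans h0.le) zero_le
    rintro y ⟨_, _, hy⟩
    simpa using hy
  | succ N ih =>
    have hsub : {y | y ∈ Ico (0:ℝ) 1 ∧ (∀ k, T^[k] y ≠ 0) ∧ T^[N+1] y ∈ S} ⊆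
        ⋃ n : ℕ, φ (n+1) '' {y | y ∈ Ico (0:ℝ) 1 ∧ (∀ k, T^[k] y ≠ 0) ∧ T^[N] y ∈ S} := by
      rintro y ⟨hy, hy0, hyS⟩
      have hz : y ≠ 0 := hy0 0
      have hy' : y ∈ Ioo (0:ℝ) 1 := ⟨lt_of_le_of_ne hy.1 (Ne.symm hz), hy.2⟩
      obtain ⟨n, hn, hφ⟩ := h.dig y hy'
      refine mem_iUnion.2 ⟨n - 1, T y, ⟨h.maps y hy, fun k => ?_, ?_⟩, ?_⟩
      · rw [← Function.iterate_succ_apply]; exact hy0 (k+1)
      · rwa [← Function.iterate_succ_apply]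
      · rw [Nat.sub_add_cancel hn]; exact hφ
    refine le_antisymm ((measure_mono hsub).trans ((measure_iUnion_le _).trans ?_)) zero_le
    refine le_of_eq (ENNReal.tsum_eq_zero.2 fun n => ?_)
    refine hc_phi_zero h hs (Nat.le_add_left 1 n) ?_ ih
    rintro y ⟨hy, _⟩
    exact ⟨hy.1, hy.2.le⟩

lemma hc_AS (h : IsSys T φ) {s : ℝ} (hs : 0 < s) {x η : ℝ} (hη : 0 < η)
    (h0 : ∀ N : ℕ, ∃ n, N ≤ n ∧ hc s (EE T x η n) = 0) : hc s (AS T x) = 0 := by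
  have hsub : AS T x ⊆ Zc T ∪ ⋃ N : ℕ, ⋃ (_ : hc s (EE T x η N) = 0),
      {y | y ∈ Ico (0:ℝ) 1 ∧ (∀ k, T^[k] y ≠ 0) ∧ T^[N] y ∈ EE T x η N} := by
    rintro y ⟨hy, hlim⟩
    by_cases hz : ∃ k, T^[k] y = 0
    · left; exact ⟨hy, hz⟩
    · right
      push Not at hz
      have hev : ∀ᶠ n in atTop, |T^[n] x - T^[n] y| < η :=
        hlim.eventually (gt_mem_nhds hη)
      obtain ⟨N, hN⟩ := eventually_atTop.1 hev
      obtain ⟨n, hn, hcn⟩ := h0 N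
      refine mem_iUnion.2 ⟨n, mem_iUnion.2 ⟨hcn, hy, hz, h.iter hy n, fun k => ?_, fun k => ?_⟩⟩
      · rw [← Function.iterate_add_apply]; exact hz _
      · rw [← Function.iterate_add_apply, abs_sub_comm, add_comm k n]
        exact hN (n + k) (by omega)
  refine le_antisymm ((measure_mono hsub).trans ((measure_union_le _ _).trans ?_)) zero_le
  rw [hc_countable hs (Zc_countable h), zero_add]
  refine (measure_iUnion_le _).trans (le_of_eq (ENNReal.tsum_eq_zero.2 fun n => ?_))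
  by_cases hn : hc s (EE T x η n) = 0
  · simp only [hn, iUnion_true]
    exact hc_pull h hs hn n
  · simp only [hn, iUnion_false]
    exact measure_empty

/-- `η` is good for `K`. -/
def SepAt (φ : ℕ → ℝ → ℝ) (K : ℕ) (η : ℝ) : Prop :=
  ∀ m n, 1 ≤ m → m ≤ K → 1 ≤ n → ∀ u ∈ Ico (0:ℝ) 1,
    ∀ v ∈ Ico (0:ℝ) 1, |u - v| < η → |φ n u - φ m v| < η → n = m

lemma EE_digit (h : IsSys T φ) {x η : ℝ} {n : ℕ} {z : ℝ} (hz : z ∈ EE T x η n) :
    ∃ d, 1 ≤ d ∧ φ d (T z) = z ∧ T z ∈ EE T x η (n+1) := by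
  have h0 : z ≠ 0 := hz.2.1 0
  have hz' : z ∈ Ioo (0:ℝ) 1 := ⟨lt_of_le_of_ne hz.1.1 (Ne.symm h0), hz.1.2⟩
  obtain ⟨d, hd, hφ⟩ := h.dig z hz'
  exact ⟨d, hd, hφ, by simpa using EE_shift h hz 1⟩

lemma EE_small (h : IsSys T φ) {K : ℕ} {x η : ℝ} (hx : x ∈ Ico (0:ℝ) 1) (hsep : SepAt φ K η)
    {n m : ℕ} (hm : 1 ≤ m) (hmK : m ≤ K) (hdig : φ m (T^[n+1] x) = T^[n] x) :
    EE T x η n ⊆ φ m '' EE T x η (n+1) := by
  intro z hz
  obtain ⟨d, hd, hφ, hTz⟩ := EE_digit h hz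
  have h1 : |T z - T^[n+1] x| < η := by simpa using hz.2.2 1
  have h2 : |z - T^[n] x| < η := by simpa using hz.2.2 0
  have hdm : d = m := by
    refine hsep m d hm hmK hd (T z) (h.maps z hz.1) (T^[n+1] x) (h.iter hx _) h1 ?_
    rw [hφ, hdig]; exact h2
  subst hdm
  exact ⟨T z, hTz, hφ⟩

lemma EE_large (h : IsSys T φ) {B : ℕ} (hB : 1 ≤ B) {x η : ℝ}
    {n : ℕ} (hsm : T^[n] x + η ≤ 1 / (B:ℝ)) :
    EE T x η n ⊆ ⋃ k : ℕ, φ (k + B) '' EE T x η (n+1) := by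
  intro z hz
  obtain ⟨d, hd, hφ, hTz⟩ := EE_digit h hz
  have h2 : |z - T^[n] x| < η := by simpa using hz.2.2 0
  have hTz01 : T z ∈ Icc (0:ℝ) 1 := ⟨(h.maps z hz.1).1, (h.maps z hz.1).2.le⟩
  have h3 := h.lo d hd (T z) hTz01
  rw [hφ] at h3
  have h4 : z < 1 / (B:ℝ) := by
    have := (abs_lt.1 h2).2
    linarith
  have h5 : 1 / ((d:ℝ)+1) < 1 / (B:ℝ) := lt_of_le_of_lt h3 h4
  have hB0 : (0:ℝ) < B := by exact_mod_cast hB
  have h6 : (B:ℝ) < d + 1 := by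
    rwa [div_lt_div_iff_of_pos_left one_pos (by positivity) hB0] at h5
  have h7 : B ≤ d := by
    have : B < d + 1 := by exact_mod_cast h6
    omega
  refine mem_iUnion.2 ⟨d - B, T z, hTz, ?_⟩
  rw [Nat.sub_add_cancel h7]; exact hφ

/-- Every `x` has `dim AS(x) ≤ 1/2`. -/
theorem dimH_AS_le (h : IsSys T φ) {x : ℝ} (hx : x ∈ Ico (0:ℝ) 1) : dimH (AS T x) ≤ 1/2 := by
  refine ENNReal.le_of_forall_pos_le_add fun ε hε _ => ?_
  set s : ℝ := 1/2 + ε with hsdef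
  have hε' : (0:ℝ) < ε := hε
  have hs : 0 < s := by positivity
  suffices hc0 : hc s (AS T x) = 0 by
    refine (dimH_le_of_hc hs hc0).trans (le_of_eq ?_)
    rw [hsdef, ENNReal.ofReal_add (by norm_num) hε'.le]
    congr 1
    · rw [ENNReal.ofReal_div_of_pos (by norm_num)]; simp
    · simp
  -- tail
  have hsum : Summable (fun n : ℕ => (n:ℝ) ^ (-(2*s))) :=
    Real.summable_nat_rpow.2 (by rw [hsdef]; linarith)
  have hfin : ∑' n : ℕ, ENNReal.ofReal ((n:ℝ) ^ (-(2*s))) ≠ ∞ := by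
    rw [← ENNReal.ofReal_tsum_of_nonneg (fun n => by positivity) hsum]
    exact ENNReal.ofReal_ne_top
  have htail := ENNReal.tendsto_sum_nat_add _ hfin
  set ρ : ℝ≥0∞ := ENNReal.ofReal ((1/2) ^ s) with hρ
  have hρpos : 0 < ρ := ENNReal.ofReal_pos.2 (by positivity)
  have hρ1 : ρ < 1 := by
    rw [hρ, ← ENNReal.ofReal_one]
    exact (ENNReal.ofReal_lt_ofReal_iff one_pos).2
      (Real.rpow_lt_one (by norm_num) (by norm_num) hs)
  obtain ⟨B0, hB0⟩ := eventually_atTop.1 (htail.eventually (gt_mem_nhds hρpos))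
  set B : ℕ := B0 + 1 with hBdef
  have hBt : ∑' k : ℕ, ENNReal.ofReal (((k + B : ℕ):ℝ) ^ (-(2*s))) ≤ ρ := (hB0 B (by omega)).le
  have hB : 1 ≤ B := by omega
  have hBr : (0:ℝ) < B := by exact_mod_cast hB
  obtain ⟨η0, hη0, hsep0⟩ := h.sep (2*B)
  set η : ℝ := min η0 (1/(2*B)) with hη
  have hηpos : 0 < η := lt_min hη0 (by positivity)
  have hsep : SepAt φ (2*B) η := by
    intro m n hm hmK hn u hu v hv h1 h2
    exact hsep0 m n hm hmK hn u hu v hv (h1.trans_le (min_le_left _ _))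
      (h2.trans_le (min_le_left _ _))
  have hE01 : ∀ n, EE T x η n ⊆ Icc 0 1 := fun n z hz => ⟨hz.1.1, hz.1.2.le⟩
  -- the step alternative
  have hstep : ∀ n, (∃ m, 1 ≤ m ∧ EE T x η n ⊆ φ m '' EE T x η (n+1)) ∨
      EE T x η n ⊆ ⋃ k : ℕ, φ (k + B) '' EE T x η (n+1) := by
    intro n
    have hxn := h.iter hx n
    have hsmall : T^[n] x ≤ 1/(2*B) → EE T x η n ⊆ ⋃ k : ℕ, φ (k + B) '' EE T x η (n+1) := by
      intro hle
      refine EE_large h hB ?_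
      have h1 : η ≤ 1/(2*B) := min_le_right _ _
      have h2 : 1/(2*(B:ℝ)) + 1/(2*B) = 1/B := by field_simp; norm_num
      linarith
    by_cases h0 : T^[n] x = 0
    · right
      exact hsmall (by rw [h0]; positivity)
    · have hx' : T^[n] x ∈ Ioo (0:ℝ) 1 := ⟨lt_of_le_of_ne hxn.1 (Ne.symm h0), hxn.2⟩
      obtain ⟨m, hm, hφ⟩ := h.dig _ hx'
      rw [← Function.iterate_succ_apply' T] at hφ
      by_cases hmK : m ≤ 2*B
      · left
        exact ⟨m, hm, EE_small h hx hsep hm hmK hφ⟩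
      · right
        apply hsmall
        have h1 := h.hi m hm (T^[n+1] x) ⟨(h.iter hx _).1, (h.iter hx _).2.le⟩
        rw [hφ] at h1
        refine h1.trans ?_
        apply one_div_le_one_div_of_le (by positivity)
        push Not at hmK
        exact_mod_cast hmK.le
  have hbig : ∀ n, EE T x η n ⊆ (⋃ k : ℕ, φ (k + B) '' EE T x η (n+1)) →
      hc s (EE T x η n) ≤ ρ * hc s (EE T x η (n+1)) := by
    intro n hn
    refine (measure_mono hn).trans ((measure_iUnion_le _).trans ?_)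
    calc ∑' k : ℕ, hc s (φ (k + B) '' EE T x η (n+1))
        ≤ ∑' k : ℕ, ENNReal.ofReal (((k + B : ℕ):ℝ) ^ (-(2*s))) * hc s (EE T x η (n+1)) := by
          refine ENNReal.tsum_le_tsum fun k => ?_
          exact hc_phi h hs (by omega) (hE01 _)
      _ = (∑' k : ℕ, ENNReal.ofReal (((k + B : ℕ):ℝ) ^ (-(2*s)))) * hc s (EE T x η (n+1)) :=
          ENNReal.tsum_mul_right
      _ ≤ _ := by gcongr
  have hone : ∀ n, hc s (EE T x η n) ≤ hc s (EE T x η (n+1)) := by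
    intro n
    rcases hstep n with ⟨m, hm, hsub⟩ | hsub
    · exact (measure_mono hsub).trans (hc_phi_le h hs hm (hE01 _))
    · refine (hbig n hsub).trans ?_
      calc _ ≤ 1 * hc s (EE T x η (n+1)) := by gcongr
        _ = _ := one_mul _
  have htwo : ∀ n, hc s (EE T x η n) ≤ ρ * hc s (EE T x η (n+2)) := by
    intro n
    rcases hstep n with ⟨m, hm, hsub⟩ | hsub
    · rcases hstep (n+1) with ⟨m', hm', hsub'⟩ | hsub'
      · refine (measure_mono (hsub.trans (image_mono hsub'))).trans ?_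
        exact hc_two h hs hm hm' (hE01 _)
      · exact (hone n).trans (hbig (n+1) hsub')
    · exact (hbig n hsub).trans (mul_le_mul' le_rfl (hone (n+1)))
  have hpow : ∀ k n, hc s (EE T x η n) ≤ ρ ^ k := by
    intro k
    induction k with
    | zero => intro n; simpa using hc_le_one hs (hE01 n)
    | succ k ih =>
      intro n
      calc hc s (EE T x η n) ≤ ρ * hc s (EE T x η (n+2)) := htwo n
        _ ≤ ρ * ρ ^ k := by gcongr; exact ih _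
        _ = ρ ^ (k+1) := by rw [pow_succ']
  have hzero : ∀ n, hc s (EE T x η n) = 0 := by
    intro n
    refine le_antisymm ?_ zero_le
    exact ge_of_tendsto' (ENNReal.tendsto_pow_atTop_nhds_zero_of_lt_one hρ1) fun k => hpow k n
  exact hc_AS h hs hηpos fun N => ⟨N, le_rfl, hzero N⟩

end Pool.Agent.R288.AS
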